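import Pool.Agent.TH942.RZ.Back
import Pool.Agent.TH942.Lead
import Pool.Agent.TH942.OS.Curve
import Pool.Agent.TH942.MN.Crit
import Pool.Agent.TH942.RZ.Self

/-!
# A lower bound for the leading term of the `L`-function from a one-sided bound for numbers of points

Let `C : y² = x³ + a x + b` be an elliptic curve over `ℚ`, `a, b ∈ ℤ`, let `F` be the entire continuation of
its incomplete `L`-series (the Euler factors at the primes dividing `2Δ` are removed), `f` its newform, `r` the
rank, `Reg` the regulator for the pairing of the problem (`⟨P, P⟩ = lim h(x(2^k P)) / 4^k`), `T` the number of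
rational torsion points, `V_r` the volume of the unit ball of `ℝ^r`, `N(X)` the number of rational points (with
the point at infinity) whose `x`-coordinate `m/n` has `max (|m|, n) ≤ X` and `N_p` the number of affine points
modulo `p`. For real `k ≥ 0` let

`Π_k(X) = ∏_{p ≤ X, p ∤ 2Δ} ((N_p + 1)/p) ^ ((1 - log p / log X)^k)`,   `ψ = Γ'/Γ`,

so that `Π_0` is the product of Birch and Swinnerton-Dyer. It is shown, for every such curve and every real
`B > 0`, that the following are EQUIVALENT:

* `F` has no zeros with `Re s > 1` (by the functional equation: the Riemann hypothesis for `C`), and either the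
  order of `F` at `1` is smaller than the rank, or it is the rank and `F^{(r)}(1)/r! ≥ B · Reg / T²`;
* `liminf N(X)² / Π_k(X) ≥ V_r² B e^{r ψ(k+1)} / √2` for every `k > 0`;
* the same for ONE real `k ≥ 0`, for example (`k = 0`) for the product of Birch and Swinnerton-Dyer itself.

So with `B = Ω · #Ш · ∏ c_p · ∏_{p ∣ 2Δ} E_p(1)` half of the leading-term formula is equivalent to one inequality,
for the rational points and the points modulo primes. Goldfeld (1982) proved that an asymptotic formula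
`Π_0(X) ∼ A (log X)^m` implies the Riemann hypothesis for `C` and `A = √2 e^{mγ} m! / F^{(m)}(1)`; here only an
inequality is assumed, and conversely the inequalities with `k > 0` are proved to follow.

Proof. Landau's lemma for the Laplace transform of `r log T + c - log Π_k(e^T)` with a correction which removes the
contribution of real zeros (library `TH942/OS`) gives the half plane without zeros and `ord ≤ r`. Then the
asymptotic formulas for `Π_k`, `k > 0`, hold, and their constants are compared with the bound; for `k = 0` one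
uses `T log Π_1(e^T) = ∫_0^T log Π_0(e^τ) dτ` and `ψ(2) = ψ(1) + 1`.
-/

set_option autoImplicit false

namespace Pool.Agent.Results.MP_92892c_nt.LeadingTermLowerBound

open Pool.Agent.W263.BSD Filter Topology Classical MeasureTheory
open CongruenceSubgroup UpperHalfPlane
open scoped MatrixGroups

/-- The group of rational points of `y² = x³ + a x + b`. -/
abbrev Pts (a b : ℤ) : Type := TH942.SPt (a : ℚ) (b : ℚ)

/-- The rank. -/
noncomputable def rank (a b : ℤ) : ℕ := Module.finrank ℤ (Pts a b)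

/-- The height `log max (|m|, n)` of the `x`-coordinate `m / n` (`0` at infinity). -/
noncomputable def ht {a b : ℤ} : Pts a b → ℝ
  | .zero => 0
  | .some x _ _ => Real.log (max x.num.natAbs x.den : ℕ)

/-- The canonical height `lim h(2^k P) / 4^k`. -/
noncomputable def canHt {a b : ℤ} (P : Pts a b) : ℝ :=
  limUnder atTop (fun k : ℕ => ht ((2 ^ k : ℕ) • P) / 4 ^ k)

/-- `P_1, …, P_r` is a basis of the group of rational points modulo torsion: every point is, in a
unique way, an integral combination of the `P_i` plus a point of finite order. -/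
def IsMWBasis {a b : ℤ} {r : ℕ} (g : Fin r → Pts a b) : Prop :=
  ∀ P : Pts a b, ∃! n : Fin r → ℤ, IsOfFinAddOrder (P - ∑ i, n i • g i)

/-- The regulator: the determinant of the pairing `⟨P, Q⟩ = (ĥ(P + Q) - ĥ(P) - ĥ(Q)) / 2`, for which
`⟨P, P⟩ = ĥ(P) = lim h(2^k P) / 4^k`. -/
noncomputable def regulator {a b : ℤ} {r : ℕ} (g : Fin r → Pts a b) : ℝ :=
  Matrix.det (Matrix.of fun i j => (canHt (g i + g j) - canHt (g i) - canHt (g j)) / 2)

/-- The number of rational torsion points. -/
noncomputable def tors (a b : ℤ) : ℕ := Nat.card {t : Pts a b // IsOfFinAddOrder t}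

/-- `N(X)`: the number of rational points with `h(P) ≤ log X`. -/
noncomputable def pointsUpTo (a b : ℤ) (X : ℝ) : ℕ := Nat.card {P : Pts a b // ht P ≤ Real.log X}

/-- The volume of the unit ball of `ℝ^r`. -/
noncomputable def ballVol (r : ℕ) : ℝ := √Real.pi ^ r / Real.Gamma (r / 2 + 1)

/-- `Π_k(X)`: the product over the primes `p ≤ X`, `p ∤ 2Δ`, of the powers of `(N_p + 1) / p` with
exponents `(1 - log p / log X)^k`. -/
noncomputable def rieszProduct (a b : ℤ) (k X : ℝ) : ℝ :=
  ∏ p ∈ (Finset.range (⌊X⌋₊ + 1)).filter (GoodPrime a b),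
    (((pointCount a b p : ℝ) + 1) / p) ^ ((1 - Real.log p / Real.log X) ^ k)

/-- `ψ(x) = Γ'(x) / Γ(x)`. -/
noncomputable def psi (x : ℝ) : ℝ := deriv Real.Gamma x / Real.Gamma x

/-- The `n`-th Fourier coefficient of `f`. -/
noncomputable def coef {N : ℕ} (f : CuspForm (Gamma0 N : Subgroup (GL (Fin 2) ℝ)) 2) (n : ℕ) : ℂ :=
  (qExpansion 1 f).coeff n

/-- `f ∈ S_2(Γ₀(N))` is the newform of the elliptic curve `E : y² = x³ + a x + b` of conductor `N`: the
Fourier coefficients `c(n)` of `f` are real with `c(1) = 1`, they satisfy the Hecke relations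
`c(mn) = c(m) c(n)` for coprime `m`, `n` and `c(p^(j+2)) = c(p) c(p^(j+1)) - p c(p^j)` (without the last
term if `p ∣ N`), `c(p) = a_p = p - N_p` (`N_p` affine points) for all primes `p ∤ 2Δ`, `|c(p)| ≤ 2 √p` for
all `p ∤ N` (Hasse) and `c(p) = 0, 1, -1` for `p ∣ N`. -/
structure IsNewformOf (a b : ℤ) (N : ℕ) (f : CuspForm (Gamma0 N : Subgroup (GL (Fin 2) ℝ)) 2) :
    Prop where
  one : coef f 1 = 1
  real : ∀ n, (coef f n).im = 0
  mul : ∀ m n : ℕ, Nat.Coprime m n → coef f (m * n) = coef f m * coef f n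
  pow : ∀ p j : ℕ, p.Prime → coef f (p ^ (j + 2)) = coef f p * coef f (p ^ (j + 1)) -
      (if p ∣ N then 0 else (p : ℂ) * coef f (p ^ j))
  points : ∀ p : ℕ, GoodPrime a b p → coef f p = (p : ℂ) - (pointCount a b p : ℂ)
  good : ∀ p : ℕ, p.Prime → ¬ p ∣ N → ‖coef f p‖ ≤ 2 * Real.sqrt p
  bad : ∀ p : ℕ, p.Prime → p ∣ N → coef f p = 0 ∨ coef f p = 1 ∨ coef f p = -1

variable {a b : ℤ} {F : ℂ → ℂ}

theorem hecke {N : ℕ} {f : CuspForm (Gamma0 N : Subgroup (GL (Fin 2) ℝ)) 2}
    (hf : IsNewformOf a b N f) : Pool.Agent.TH941.Hecke f where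
  one := hf.one
  real := hf.real
  mul := hf.mul
  pow := hf.pow
  good := hf.good
  bad := fun p hp h => by
    rcases hf.bad p hp h with h1 | h1 | h1
    · have h2 : ‖coef f p‖ ≤ 1 := by rw [h1]; simp
      exact h2
    · have h2 : ‖coef f p‖ ≤ 1 := by rw [h1]; simp
      exact h2
    · have h2 : ‖coef f p‖ ≤ 1 := by rw [h1]; simp
      exact h2

theorem rs {N : ℕ} [NeZero N] {f : CuspForm (Gamma0 N : Subgroup (GL (Fin 2) ℝ)) 2}
    (hΔ : 4 * a ^ 3 + 27 * b ^ 2 ≠ 0) (hf : IsNewformOf a b N f) :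
    Tendsto (Pool.Agent.W263.BSD.rsSum a b) atTop (𝓝 0) :=
  (hecke hf).rsSum_tendsto hΔ fun p hp => hf.points p hp

theorem ht_eq (P : Pts a b) : ht P = TH942.sht (K := ℚ) (a := (a : ℚ)) (b := (b : ℚ)) P := by
  cases P with
  | zero => exact TH942.sht_zero.symm
  | some x y h => exact (TH942.sht_some h).symm

theorem factor_pos {p : ℕ} (hp : GoodPrime a b p) : 0 < ((pointCount a b p : ℝ) + 1) / p := by
  have hp0 : (0 : ℝ) < p := by exact_mod_cast hp.1.pos
  positivity

theorem rieszProduct_pos (a b : ℤ) (k X : ℝ) : 0 < rieszProduct a b k X :=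
  Finset.prod_pos fun _ hp => Real.rpow_pos_of_pos (factor_pos (Finset.mem_filter.1 hp).2) _

theorem log_rieszProduct (a b : ℤ) (k X : ℝ) :
    Real.log (rieszProduct a b k X) = TH942.RZ.rz a b k X := by
  unfold rieszProduct TH942.RZ.rz
  rw [Real.log_prod fun p hp => (Real.rpow_pos_of_pos (factor_pos (Finset.mem_filter.1 hp).2) _).ne']
  refine Finset.sum_congr rfl fun p hp => ?_
  rw [Real.log_rpow (factor_pos (Finset.mem_filter.1 hp).2)]

theorem loglog_tendsto : Tendsto (fun X : ℝ => Real.log (Real.log X)) atTop atTop :=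
  Real.tendsto_log_atTop.comp Real.tendsto_log_atTop

/-- the limit of the products under the Riemann hypothesis -/
theorem prod_lim (hΔ : 4 * a ^ 3 + 27 * b ^ 2 ≠ 0) (hrs : Tendsto (rsSum a b) atTop (𝓝 0))
    (hgr : ∃ C : ℝ, ∀ s : ℂ, 0 < s.re → ‖PhiF a b F s‖ ≤ C * (1 + ‖s‖) * (1 + 1 / s.re) ^ 2)
    (hF : IsLSeries a b F) {k : ℝ} (hk : 0 < k) {m : ℕ}
    (hm : analyticOrderAt F 1 = m) (hz : ∀ s : ℂ, 1 < s.re → F s ≠ 0) :
    ∃ A : ℝ, 0 < A ∧ iteratedDeriv m F 1 / (m.factorial : ℂ) = (A : ℂ) ∧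
      Tendsto (fun X : ℝ => rieszProduct a b k X / Real.log X ^ (m : ℝ)) atTop
        (𝓝 (√2 * Real.exp (-(m * psi (k + 1))) / A)) := by
  obtain ⟨κ, h1, h2⟩ := TH942.RZ.curve_riesz hΔ hrs hgr hF hm hz hk
  have hE := Real.exp_pos κ
  set E : ℝ := √2 * Real.exp (-(m * psi (k + 1))) with hEd
  have hE0 : 0 < E := by positivity
  change _ = ((E : ℝ) : ℂ) at h2
  have hEc : ((Real.exp κ : ℝ) : ℂ) ≠ 0 := by exact_mod_cast hE.ne'
  refine ⟨E / Real.exp κ, by positivity, ?_, ?_⟩
  · rw [Complex.ofReal_div, eq_div_iff hEc, mul_comm]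
    exact h2
  · rw [div_div_cancel₀ hE0.ne']
    have h3 := (Real.continuous_exp.tendsto κ).comp (h1.comp Real.tendsto_log_atTop)
    refine h3.congr' ?_
    filter_upwards [eventually_gt_atTop 1] with X hX
    have hl : 0 < Real.log X := Real.log_pos hX
    simp only [Function.comp_apply]
    rw [Real.exp_sub, ← TH942.RZ.rz_eq hk hX, ← log_rieszProduct,
      Real.exp_log (rieszProduct_pos a b k X), Real.rpow_def_of_pos hl, mul_comm (m : ℝ)]

/-- the product of Birch and Swinnerton-Dyer and the Riesz products as products with a weight -/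
noncomputable def wt (k : ℝ) : ℝ → ℝ := (Set.Ioc (0 : ℝ) 1).indicator fun u => (1 - u) ^ k

theorem wt_eq {k : ℝ} (u : ℝ) (h0 : 0 < u) (h1 : u ≤ 1) : wt k u = (1 - u) ^ k := by
  unfold wt
  rw [Set.indicator_of_mem (show u ∈ Set.Ioc (0 : ℝ) 1 from ⟨h0, h1⟩)]

theorem wt_meas (k : ℝ) : Measurable (wt k) := by
  unfold wt
  refine Measurable.indicator ?_ measurableSet_Ioc
  exact (measurable_const.sub measurable_id).pow_const k

theorem wt_nonneg (k : ℝ) (u : ℝ) : 0 ≤ wt k u := by
  unfold wt
  exact Set.indicator_nonneg (fun x hx => Real.rpow_nonneg (by linarith [hx.2]) k) u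

theorem wt_Wt {k : ℝ} (hk : 0 ≤ k) : TH942.LS.Wt (wt k) 1 1 := by
  refine ⟨wt_meas k, fun u => ?_, one_pos, fun u hu => ?_⟩
  · rw [abs_of_nonneg (wt_nonneg k u)]
    unfold wt
    refine Set.indicator_le' (fun x hx => ?_) (fun x _ => zero_le_one) u
    exact Real.rpow_le_one (by linarith [hx.2]) (by linarith [hx.1]) hk
  · unfold wt
    rw [Set.indicator_of_notMem fun h => not_lt.2 h.2 hu]

theorem wt_top {k : ℝ} : ∀ κ, κ < (1 : ℝ) → ¬ ∀ᵐ x : ℝ, x ∈ Set.Ioo κ 1 → wt k x = 0 := by
  intro κ hκ h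
  have h1 : (volume (Set.Ioo (max κ 0) 1)) = 0 := by
    refine measure_mono_null ?_ (ae_iff.1 h)
    intro x hx
    have h2 : 0 < x := (le_max_right _ _).trans_lt hx.1
    simp only [Set.mem_ofPred_eq, Classical.not_imp]
    refine ⟨⟨(le_max_left _ _).trans_lt hx.1, hx.2⟩, ?_⟩
    rw [wt_eq x h2 hx.2.le]
    exact (Real.rpow_pos_of_pos (by linarith [hx.2]) k).ne'
  rw [Real.volume_Ioo, ENNReal.ofReal_eq_zero] at h1
  have h2 : max κ 0 < 1 := max_lt hκ one_pos
  linarith

theorem wt_dini {k : ℝ} (hk : 0 ≤ k) : IntegrableOn (fun u : ℝ => |wt k u - 1| / u) (Set.Ioo 0 1) := by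
  rcases hk.eq_or_lt with h0 | h0
  · have e0 : IntegrableOn (fun _ : ℝ => (0 : ℝ)) (Set.Ioo 0 1) := integrableOn_zero
    refine e0.congr_fun (fun u hu => ?_) measurableSet_Ioo
    simp only
    rw [wt_eq u hu.1 hu.2.le, ← h0, Real.rpow_zero, sub_self, abs_zero, zero_div]
  · refine (TH942.RZ.rzv_dini h0).congr_fun (fun u hu => ?_) measurableSet_Ioo
    simp only
    have h1 : TH942.RZ.rzv k u = wt k u := by
      rw [wt_eq u hu.1 hu.2.le]
      unfold TH942.RZ.rzv
      rw [Set.indicator_of_mem (show u ∈ Set.Ioc (0 : ℝ) 1 from ⟨hu.1, hu.2.le⟩)]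
      unfold TH942.RZ.rzw
      rw [max_eq_left (by linarith [hu.2])]
    rw [h1]

theorem rieszProduct_eq {k : ℝ} {X : ℝ} (hX : 1 < X) :
    rieszProduct a b k X = TH942.RZ.Self.localProduct a b (wt k) 1 X := by
  unfold rieszProduct TH942.RZ.Self.localProduct
  rw [Real.rpow_one]
  refine Finset.prod_congr rfl fun p hp => ?_
  obtain ⟨h1, h2⟩ := Finset.mem_filter.1 hp
  have hT : 0 < Real.log X := Real.log_pos hX
  have hp1 : (1 : ℝ) < p := by exact_mod_cast h2.1.one_lt
  have h3 : (p : ℝ) ≤ X := by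
    rw [Finset.mem_range, Nat.lt_succ_iff] at h1
    exact (Nat.le_floor_iff (by linarith)).1 h1
  have h4 : Real.log p / Real.log X ≤ 1 := by
    rw [div_le_one hT]
    exact Real.log_le_log (by linarith) h3
  have h5 : 0 < Real.log p / Real.log X := div_pos (Real.log_pos hp1) hT
  rw [wt_eq _ h5 h4]

theorem log_rieszProduct' {k : ℝ} (hk : 0 ≤ k) {X : ℝ} (hX : 1 < X) :
    Real.log (rieszProduct a b k X) =
      TH942.LS.S TH942.LS.lm (TH942.LS.cE a b) (wt k) (Real.log X) := by
  rw [rieszProduct_eq hX]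
  exact TH942.RZ.Self.log_localProduct (a := a) (b := b) (fun _ _ _ => rfl) (wt_Wt hk) hX

/-- an upper bound for the logarithm of the product gives the half plane and a bound of the order -/
theorem order_bound (hF : IsLSeries a b F) {m : ℕ} (hm : analyticOrderAt F 1 = m) {k : ℝ}
    (hk : 0 ≤ k) {r M : ℝ}
    (h : ∀ᶠ X : ℝ in atTop, Real.log (rieszProduct a b k X) ≤ r * Real.log (Real.log X) + M) :
    (∀ s : ℂ, 1 < s.re → F s ≠ 0) ∧ (m : ℝ) ≤ r := by
  obtain ⟨h1, h2⟩ := TH942.OS.order_le hF hm (wt_Wt hk) (wt_nonneg k) wt_top (wt_dini hk) (ρ := r)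
    fun ε hε => by
      have e1 : ∀ᶠ X : ℝ in atTop, M ≤ ε * Real.log (Real.log X) :=
        (loglog_tendsto.const_mul_atTop hε).eventually (eventually_ge_atTop _)
      have e2 : ∀ᶠ X : ℝ in atTop, TH942.LS.S TH942.LS.lm (TH942.LS.cE a b) (wt k) (Real.log X) ≤
          (r + ε) * Real.log (Real.log X) := by
        filter_upwards [e1, h, eventually_gt_atTop 1] with X h3 h4 hX
        rw [← log_rieszProduct' hk hX]
        linarith
      have e4 := Real.tendsto_exp_atTop.eventually e2
      filter_upwards [e4] with T hT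
      rwa [Real.log_exp] at hT
  refine ⟨fun s hs h0 => h1 (s - 1) (by simpa using hs) ?_, h2⟩
  unfold PhiF
  rw [add_sub_cancel, h0, zero_mul]

/-- the mean of a step function -/
theorem int_step {ℓ T c : ℝ} (h0 : 0 < ℓ) (h1 : ℓ ≤ T) :
    ∫ τ in (0 : ℝ)..T, (if ℓ ≤ τ then c else 0) = c * (T - ℓ) := by
  have hT : 0 < T := h0.trans_le h1
  rw [intervalIntegral.integral_of_le hT.le]
  have e1 : (fun τ : ℝ => if ℓ ≤ τ then c else 0) = (Set.Ici ℓ).indicator fun _ => c := by
    funext τ
    simp only [Set.indicator, Set.mem_Ici]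
  rw [e1, setIntegral_indicator measurableSet_Ici]
  have e2 : Set.Ioc 0 T ∩ Set.Ici ℓ = Set.Icc ℓ T := by
    ext x
    simp only [Set.mem_inter_iff, Set.mem_Ioc, Set.mem_Ici, Set.mem_Icc]
    constructor
    · rintro ⟨⟨h2, h3⟩, h4⟩
      exact ⟨h4, h3⟩
    · rintro ⟨h2, h3⟩
      exact ⟨⟨h0.trans_le h2, h3⟩, h2⟩
  rw [e2, setIntegral_const, Measure.real, Real.volume_Icc, ENNReal.toReal_ofReal (by linarith),
    smul_eq_mul, mul_comm]

theorem step_int (ℓ c x y : ℝ) :
    IntervalIntegrable (fun τ : ℝ => if ℓ ≤ τ then c else 0) volume x y := by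
  have e1 : (fun τ : ℝ => if ℓ ≤ τ then c else 0) = (Set.Ici ℓ).indicator fun _ => c := by
    funext τ
    simp only [Set.indicator, Set.mem_Ici]
  rw [e1]
  constructor
  · exact IntegrableOn.indicator (by simp [integrableOn_const_iff]) measurableSet_Ici
  · exact IntegrableOn.indicator (by simp [integrableOn_const_iff]) measurableSet_Ici

/-- the logarithm of the product of Birch and Swinnerton-Dyer at `e^τ` -/
noncomputable def lz (a b : ℤ) (τ : ℝ) : ℝ := Real.log (rieszProduct a b 0 (Real.exp τ))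

theorem lz_eq (a b : ℤ) {T τ : ℝ} (hτ : τ ≤ T) :
    lz a b τ = ∑ p ∈ (Finset.range (⌊Real.exp T⌋₊ + 1)).filter (GoodPrime a b),
      (if Real.log p ≤ τ then Real.log (((pointCount a b p : ℝ) + 1) / p) else 0) := by
  unfold lz rieszProduct
  simp only [Real.rpow_zero, Real.rpow_one]
  rw [Real.log_prod fun p hp => (factor_pos (Finset.mem_filter.1 hp).2).ne', ← Finset.sum_filter]
  refine Finset.sum_congr ?_ fun p _ => rfl
  ext p
  simp only [Finset.mem_filter, Finset.mem_range, Nat.lt_succ_iff]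
  constructor
  · rintro ⟨h1, h2⟩
    have hp0 : (0 : ℝ) < p := by exact_mod_cast h2.1.pos
    rw [Nat.le_floor_iff (Real.exp_pos _).le] at h1
    refine ⟨⟨?_, h2⟩, ?_⟩
    · rw [Nat.le_floor_iff (Real.exp_pos _).le]
      exact h1.trans (Real.exp_le_exp.2 hτ)
    · rw [← Real.log_exp τ]
      exact Real.log_le_log hp0 h1
  · rintro ⟨⟨h1, h2⟩, h3⟩
    have hp0 : (0 : ℝ) < p := by exact_mod_cast h2.1.pos
    refine ⟨?_, h2⟩
    rw [Nat.le_floor_iff (Real.exp_pos _).le, ← Real.log_le_iff_le_exp hp0]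
    exact h3

theorem lz_int (a b : ℤ) (x y : ℝ) : IntervalIntegrable (lz a b) volume x y := by
  have h1 : IntervalIntegrable (fun τ : ℝ => ∑ p ∈ (Finset.range (⌊Real.exp (max x y)⌋₊ + 1)).filter
      (GoodPrime a b), (if Real.log p ≤ τ then Real.log (((pointCount a b p : ℝ) + 1) / p) else 0))
      volume x y := by
    rw [intervalIntegrable_iff]
    exact integrable_finsetSum _ fun p _ => intervalIntegrable_iff.1 (step_int _ _ _ _)
  refine h1.congr ?_
  intro τ hτ
  have h2 : τ ≤ max x y := by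
    rw [Set.uIoc] at hτ
    exact hτ.2
  exact (lz_eq a b h2).symm

/-- **the product with `k = 1` is the mean of the product of Birch and Swinnerton-Dyer** -/
theorem mean_lz (a b : ℤ) {T : ℝ} (hT : 0 < T) :
    T * Real.log (rieszProduct a b 1 (Real.exp T)) = ∫ τ in (0 : ℝ)..T, lz a b τ := by
  have h1 : ∫ τ in (0 : ℝ)..T, lz a b τ =
      ∫ τ in (0 : ℝ)..T, ∑ p ∈ (Finset.range (⌊Real.exp T⌋₊ + 1)).filter (GoodPrime a b),
      (if Real.log p ≤ τ then Real.log (((pointCount a b p : ℝ) + 1) / p) else 0) := by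
    refine intervalIntegral.integral_congr_ae (ae_of_all _ fun τ hτ => ?_)
    rw [Set.uIoc_of_le hT.le] at hτ
    exact lz_eq a b hτ.2
  rw [h1, intervalIntegral.integral_finsetSum fun p _ => step_int _ _ _ _]
  unfold rieszProduct
  simp only [Real.rpow_one]
  rw [Real.log_prod fun p hp => (Real.rpow_pos_of_pos (factor_pos (Finset.mem_filter.1 hp).2) _).ne',
    Finset.mul_sum]
  refine Finset.sum_congr rfl fun p hp => ?_
  obtain ⟨h2, h3⟩ := Finset.mem_filter.1 hp
  have hp1 : (1 : ℝ) < p := by exact_mod_cast h3.1.one_lt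
  have h4 : Real.log p ≤ T := by
    rw [Finset.mem_range, Nat.lt_succ_iff, Nat.le_floor_iff (Real.exp_pos _).le] at h2
    rw [← Real.log_exp T]
    exact Real.log_le_log (by linarith) h2
  rw [int_step (Real.log_pos hp1) h4, Real.log_rpow (factor_pos h3), Real.log_exp]
  field_simp

/-- the mean of an upper bound -/
theorem mean_upper (a b : ℤ) {r M : ℝ}
    (h : ∀ᶠ τ : ℝ in atTop, lz a b τ ≤ r * Real.log τ + M) :
    ∃ C : ℝ, ∀ᶠ T : ℝ in atTop,
      Real.log (rieszProduct a b 1 (Real.exp T)) - r * Real.log T ≤ M - r + C / T := by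
  obtain ⟨T₀, hT₀⟩ := (h.and (eventually_gt_atTop 1)).exists_forall_of_atTop
  have hT1 : 1 < T₀ := (hT₀ T₀ le_rfl).2
  refine ⟨(∫ τ in (0 : ℝ)..T₀, lz a b τ) - (r * (T₀ * Real.log T₀ - T₀) + M * T₀), ?_⟩
  filter_upwards [eventually_ge_atTop T₀] with T hT
  have hT0 : 0 < T := by linarith
  have h1 := mean_lz a b hT0
  rw [← intervalIntegral.integral_add_adjacent_intervals (lz_int a b 0 T₀) (lz_int a b T₀ T)] at h1
  have h2 : ∫ τ in T₀..T, lz a b τ ≤ ∫ τ in T₀..T, (r * Real.log τ + M) := by
    refine intervalIntegral.integral_mono_on hT (lz_int a b T₀ T) ?_ fun τ hτ => (hT₀ τ hτ.1).1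
    exact (intervalIntegral.intervalIntegrable_log' (a := T₀) (b := T)).const_mul r |>.add
      intervalIntegrable_const
  have h3 : ∫ τ in T₀..T, (r * Real.log τ + M) =
      r * (T * Real.log T - T) + M * T - (r * (T₀ * Real.log T₀ - T₀) + M * T₀) := by
    rw [intervalIntegral.integral_add
      ((intervalIntegral.intervalIntegrable_log' (a := T₀) (b := T)).const_mul r)
      intervalIntegrable_const, intervalIntegral.integral_const_mul, integral_log,
      intervalIntegral.integral_const, smul_eq_mul]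
    ring
  rw [h3] at h2
  set I : ℝ := ∫ τ in (0 : ℝ)..T₀, lz a b τ with hI
  set J : ℝ := r * (T₀ * Real.log T₀ - T₀) + M * T₀ with hJ
  have h4 : T * Real.log (rieszProduct a b 1 (Real.exp T)) ≤
      I + (r * (T * Real.log T - T) + M * T - J) := by linarith
  have h5 : T * (M - r + (I - J) / T + r * Real.log T) =
      I + (r * (T * Real.log T - T) + M * T - J) := by
    field_simp
    ring
  rw [← h5] at h4
  have h6 := le_of_mul_le_mul_left h4 hT0
  linarith

theorem psi_two : psi (1 + 1) = psi (0 + 1) + 1 := by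
  unfold psi
  have := TH942.MN.digamma_succ (x := 1) one_pos
  rw [this, zero_add]
  norm_num

/-- **Lower bounds for the leading term and one-sided bounds for numbers of points.** -/
theorem result (a b : ℤ) (hΔ : 4 * a ^ 3 + 27 * b ^ 2 ≠ 0) (F : ℂ → ℂ) (hF : IsLSeries a b F)
    (N : ℕ) [NeZero N] (f : CuspForm (Gamma0 N : Subgroup (GL (Fin 2) ℝ)) 2)
    (hf : IsNewformOf a b N f) :
    (∃ g : Fin (rank a b) → Pts a b, IsMWBasis g) ∧
    ∀ g : Fin (rank a b) → Pts a b, IsMWBasis g → 0 < regulator g ∧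
      ∀ B : ℝ, 0 < B → List.TFAE [
        (∀ s : ℂ, 1 < s.re → F s ≠ 0) ∧ (analyticOrderAt F 1 < rank a b ∨
          (analyticOrderAt F 1 = rank a b ∧ ∃ A : ℝ, B * regulator g / tors a b ^ 2 ≤ A ∧
            iteratedDeriv (rank a b) F 1 / (rank a b).factorial = (A : ℂ))),
        ∀ k : ℝ, 0 < k → ∀ ε : ℝ, 0 < ε → ∀ᶠ X : ℝ in atTop,
          ballVol (rank a b) ^ 2 * B * Real.exp (rank a b * psi (k + 1)) / √2 - ε ≤
            (pointsUpTo a b X : ℝ) ^ 2 / rieszProduct a b k X,
        ∃ k : ℝ, 0 ≤ k ∧ ∀ ε : ℝ, 0 < ε → ∀ᶠ X : ℝ in atTop,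
          ballVol (rank a b) ^ 2 * B * Real.exp (rank a b * psi (k + 1)) / √2 - ε ≤
            (pointsUpTo a b X : ℝ) ^ 2 / rieszProduct a b k X] := by
  have hrs := rs hΔ hf
  have hgr := TH942.RZ.growth_newform hΔ hF (hecke hf) fun p hp => hf.points p hp
  have hD : 4 * (a : ℚ) ^ 3 + 27 * (b : ℚ) ^ 2 ≠ 0 := by exact_mod_cast hΔ
  obtain ⟨q, C, hq0, hq, hqh, hqlim, hcount⟩ := TH942.neron hD
  obtain ⟨m, hm⟩ := Pool.Agent.W189.ML.order_finite_all hF 1
  have hfac : ∀ n : ℕ, (n.factorial : ℂ) ≠ 0 := fun n => by exact_mod_cast n.factorial_ne_zero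
  have hfin : ∀ B : ℝ, {P : Pts a b | ht P ≤ B}.Finite := by
    intro B
    simp only [ht_eq]
    exact TH942.sfinite_ht B
  have hcan : ∀ P : Pts a b, canHt P = q P := by
    intro P
    unfold canHt
    apply Tendsto.limUnder_eq
    have := hqlim P
    simpa only [← ht_eq] using this
  set r := rank a b with hr
  -- a basis
  obtain ⟨r', g', hg'⟩ := TH942.exists_basis (TH942.sfg hD)
  have hr' : r = r' := by
    have := TH942.card_basis hg'
    rw [Fintype.card_fin] at this
    exact this
  have hbasis : ∃ g : Fin r → Pts a b, IsMWBasis g := by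
    rw [hr']
    exact ⟨g', hg'⟩
  refine ⟨hbasis, fun g hg => ?_⟩
  -- the number of points
  obtain ⟨hreg', hlim'⟩ := hcount (Fin r) g hg
  have hrg : regulator g = (TH942.gram q g).det := by
    unfold regulator TH942.gram
    simp only [hcan]
  have hreg : 0 < regulator g := by rw [hrg]; exact hreg'
  have hT0 : 0 < tors a b := by
    have h1 : Finite {t : Pts a b // IsOfFinAddOrder t} := by
      have h2 : {t : Pts a b | IsOfFinAddOrder t} ⊆ {P | ht P ≤ C} := by
        intro t ht'
        have h9 := TH942.q_comb q hq g t ht' 0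
        simp only [Pi.zero_apply, zero_smul, Finset.sum_const_zero, zero_add, Int.cast_zero,
          zero_mul] at h9
        have h10 := abs_le.1 (hqh t)
        simp only [Set.mem_ofPred_eq, ht_eq]
        linarith
      exact ((hfin C).subset h2).to_subtype
    have h2 : Nonempty {t : Pts a b // IsOfFinAddOrder t} := ⟨⟨0, IsOfFinAddOrder.zero⟩⟩
    exact Nat.card_pos
  have hT : (0 : ℝ) < tors a b := by exact_mod_cast hT0
  have hV : 0 < ballVol r := TH942.ballVol_pos r
  have hsr : 0 < √(regulator g) := Real.sqrt_pos.2 hreg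
  have hsr2 : √(regulator g) ^ 2 = regulator g := Real.sq_sqrt hreg.le
  set K : ℝ := tors a b ^ 2 * ballVol r ^ 2 / regulator g with hK
  have hK0 : 0 < K := by positivity
  have hN : Tendsto (fun X : ℝ => (pointsUpTo a b X : ℝ) ^ 2 / Real.log X ^ (r : ℝ)) atTop
      (𝓝 K) := by
    have h1 := (hlim'.comp Real.tendsto_log_atTop).pow 2
    have h2 : (Nat.card {t : TH942.SPt (a : ℚ) (b : ℚ) // IsOfFinAddOrder t} *
        TH942.ballVol (Fintype.card (Fin r)) / √ (TH942.gram q g).det) ^ 2 = K := by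
      rw [← hrg, div_pow, mul_pow, hsr2, Fintype.card_fin]
      rfl
    rw [h2] at h1
    refine h1.congr' ?_
    filter_upwards [eventually_gt_atTop 1] with X hX
    have hl : 0 < Real.log X := Real.log_pos hX
    simp only [Function.comp_apply, Fintype.card_fin]
    have h6 : (Real.log X ^ ((r : ℝ) / 2)) ^ 2 = Real.log X ^ (r : ℝ) := by
      rw [← Real.rpow_natCast, ← Real.rpow_mul hl.le]
      congr 1
      push_cast
      ring
    rw [div_pow, h6]
    unfold pointsUpTo
    simp only [ht_eq]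
  have hNpos : ∀ᶠ X : ℝ in atTop, (0 : ℝ) < (pointsUpTo a b X : ℝ) ^ 2 := by
    filter_upwards [eventually_ge_atTop 1] with X hX
    have h1 : Finite {P : Pts a b // ht P ≤ Real.log X} := (hfin _).to_subtype
    have h2 : Nonempty {P : Pts a b // ht P ≤ Real.log X} := ⟨⟨0, Real.log_nonneg hX⟩⟩
    have h3 : 0 < pointsUpTo a b X := Nat.card_pos
    have h4 : (0 : ℝ) < pointsUpTo a b X := by exact_mod_cast h3
    positivity
  have hNup : ∀ δ : ℝ, 0 < δ → ∀ᶠ X : ℝ in atTop,
      (pointsUpTo a b X : ℝ) ^ 2 ≤ K * (1 + δ) * Real.log X ^ (r : ℝ) := by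
    intro δ hδ
    have h1 : K < K * (1 + δ) := by nlinarith
    filter_upwards [hN.eventually_lt_const h1, eventually_gt_atTop 1] with X h2 hX
    have hl : 0 < Real.log X := Real.log_pos hX
    exact ((div_lt_iff₀ (Real.rpow_pos_of_pos hl _)).1 h2).le
  -- the logarithm of the product is bounded above
  have hlog : ∀ k c δ : ℝ, 0 < c → 0 < δ → (∀ ε : ℝ, 0 < ε → ∀ᶠ X : ℝ in atTop,
      c - ε ≤ (pointsUpTo a b X : ℝ) ^ 2 / rieszProduct a b k X) →
      ∀ᶠ X : ℝ in atTop, Real.log (rieszProduct a b k X) ≤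
        r * Real.log (Real.log X) + (Real.log (K / c) + δ) := by
    intro k c δ hc hδ h
    -- `(1 + η) / (1 - η) ≤ e^δ`
    obtain ⟨η, hη0, hη1, hη⟩ : ∃ η : ℝ, 0 < η ∧ η < 1 ∧ (1 + η) / (1 - η) ≤ Real.exp δ := by
      refine ⟨δ / (2 + δ), by positivity, by rw [div_lt_one (by positivity)]; linarith, ?_⟩
      have e1 : (1 + δ / (2 + δ)) / (1 - δ / (2 + δ)) = 1 + δ := by
        have : (2 + δ) ≠ 0 := by positivity
        have h2 : 1 - δ / (2 + δ) = 2 / (2 + δ) := by field_simp; ring
        have h3 : 1 + δ / (2 + δ) = 2 * (1 + δ) / (2 + δ) := by field_simp; ring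
        rw [h2, h3]
        field_simp
      rw [e1]
      linarith [Real.add_one_le_exp δ]
    filter_upwards [h (c * η) (by positivity), hNup η hη0, eventually_gt_atTop 1] with X h1 h2 hX
    have hl : 0 < Real.log X := Real.log_pos hX
    have hlr := Real.rpow_pos_of_pos hl (r : ℝ)
    have h3 := rieszProduct_pos a b k X
    rw [le_div_iff₀ h3] at h1
    have h4 : 0 < c - c * η := by nlinarith
    have h5 : rieszProduct a b k X ≤ K / c * Real.exp δ * Real.log X ^ (r : ℝ) := by
      have h6 : (c - c * η) * rieszProduct a b k X ≤ K * (1 + η) * Real.log X ^ (r : ℝ) := h1.trans h2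
      have h7 : rieszProduct a b k X ≤ K * (1 + η) * Real.log X ^ (r : ℝ) / (c - c * η) := by
        rw [le_div_iff₀ h4, mul_comm]
        exact h6
      have h8 : K * (1 + η) * Real.log X ^ (r : ℝ) / (c - c * η) =
          K / c * ((1 + η) / (1 - η)) * Real.log X ^ (r : ℝ) := by
        have h9 : (1 - η) ≠ 0 := by linarith
        have h10 : c - c * η = c * (1 - η) := by ring
        rw [h10]
        field_simp
      rw [h8] at h7
      refine h7.trans ?_
      gcongr
    have h6 := Real.log_le_log h3 h5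
    rw [Real.log_mul (by positivity) hlr.ne', Real.log_mul (by positivity) (Real.exp_pos _).ne',
      Real.log_exp, Real.log_rpow hl] at h6
    linarith
  -- and conversely
  have hforth : m = r → (∀ s : ℂ, 1 < s.re → F s ≠ 0) → ∃ A : ℝ, 0 < A ∧
      iteratedDeriv r F 1 / (r.factorial : ℂ) = (A : ℂ) ∧ ∀ k : ℝ, 0 < k →
      Tendsto (fun X : ℝ => (pointsUpTo a b X : ℝ) ^ 2 / rieszProduct a b k X) atTop
        (𝓝 (K * A * Real.exp (r * psi (k + 1)) / √2)) := by
    intro hmr hz
    obtain ⟨A, hA, h2, -⟩ := prod_lim hΔ hrs hgr hF one_pos hm hz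
    rw [hmr] at h2
    refine ⟨A, hA, h2, fun k hk => ?_⟩
    obtain ⟨A', hA', h2', h3⟩ := prod_lim hΔ hrs hgr hF hk hm hz
    rw [hmr] at h2' h3
    have hAA : A' = A := by
      rw [h2] at h2'
      exact_mod_cast h2'.symm
    rw [hAA] at h3
    have h4 := hN.div h3 (by positivity)
    have h5 : K / (√2 * Real.exp (-(r * psi (k + 1))) / A) =
        K * A * Real.exp (r * psi (k + 1)) / √2 := by
      rw [Real.exp_neg]
      field_simp
    rw [h5] at h4
    refine h4.congr' ?_
    filter_upwards [hNpos, eventually_gt_atTop 1] with X h2 h3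
    have h4 : 0 < Real.log X := Real.log_pos h3
    have h5 := rieszProduct_pos a b k X
    have h6 := Real.rpow_pos_of_pos h4 (r : ℝ)
    simp only [Pi.div_apply]
    field_simp
  have hmr : analyticOrderAt F 1 = r ↔ m = r := by
    rw [hm]
    exact Nat.cast_inj
  have h20 : (0 : ℝ) < √2 := by positivity
  refine ⟨hreg, fun B hB => ?_⟩
  set c : ℝ → ℝ := fun k => ballVol r ^ 2 * B * Real.exp (r * psi (k + 1)) / √2 with hc
  have hc0 : ∀ k, 0 < c k := fun k => by rw [hc]; positivity
  have hcK : ∀ k A : ℝ, K * A * Real.exp (r * psi (k + 1)) / √2 =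
      c k * (A / (B * regulator g / tors a b ^ 2)) := by
    intro k A
    rw [hc, hK]
    field_simp
  have hBR : 0 < B * regulator g / tors a b ^ 2 := by positivity
  have hlt : analyticOrderAt F 1 < r ↔ m < r := by
    rw [hm]
    exact Nat.cast_lt
  tfae_have 1 → 2 := by
    rintro ⟨hz, h1⟩ k hk ε hε
    change ∀ᶠ X : ℝ in atTop, c k - ε ≤ _
    rcases h1 with h1 | ⟨h1, A₀, h2, h3⟩
    · have hmr' : m < r := hlt.1 h1
      obtain ⟨A, hA, -, h4⟩ := prod_lim hΔ hrs hgr hF hk hm hz
      have h5 := hN.div h4 (by positivity)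
      have h6 : Tendsto (fun X : ℝ => Real.log X ^ ((r : ℝ) - m)) atTop atTop :=
        (tendsto_rpow_atTop (by
          have : (m : ℝ) < r := by exact_mod_cast hmr'
          linarith)).comp Real.tendsto_log_atTop
      have h7 := h6.atTop_mul_pos (C := K / (√2 * Real.exp (-(m * psi (k + 1))) / A))
        (by positivity) h5
      refine (h7.eventually_ge_atTop (c k - ε)).mp ?_
      filter_upwards [eventually_gt_atTop 1] with X hX h8
      have hl : 0 < Real.log X := Real.log_pos hX
      have h9 := Real.rpow_pos_of_pos hl (r : ℝ)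
      have h10 := Real.rpow_pos_of_pos hl (m : ℝ)
      have h11 := rieszProduct_pos a b k X
      have h12 : Real.log X ^ ((r : ℝ) - m) * ((pointsUpTo a b X : ℝ) ^ 2 / Real.log X ^ (r : ℝ) /
          (rieszProduct a b k X / Real.log X ^ (m : ℝ))) =
          (pointsUpTo a b X : ℝ) ^ 2 / rieszProduct a b k X := by
        rw [Real.rpow_sub hl]
        field_simp
      simp only [Pi.div_apply] at h8
      rwa [h12] at h8
    · obtain ⟨A, hA, h4, h5⟩ := hforth (hmr.1 h1) hz
      have h6 : A₀ = A := by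
        rw [h3] at h4
        exact_mod_cast h4
      have h7 := h5 k hk
      rw [hcK] at h7
      have h8 : c k - ε < c k * (A / (B * regulator g / tors a b ^ 2)) := by
        have h9 : 1 ≤ A / (B * regulator g / tors a b ^ 2) := by
          rw [one_le_div hBR, ← h6]
          exact h2
        have := hc0 k
        nlinarith
      exact (h7.eventually_const_lt h8).mono fun X hX => hX.le
  tfae_have 2 → 3 := fun h => ⟨1, zero_le_one, h 1 one_pos⟩
  tfae_have 3 → 1 := by
    rintro ⟨k, hk, h⟩
    change ∀ ε : ℝ, 0 < ε → ∀ᶠ X : ℝ in atTop, c k - ε ≤ _ at h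
    have hup := fun δ (hδ : 0 < δ) => hlog k (c k) δ (hc0 k) hδ h
    obtain ⟨hz, hmr'⟩ := order_bound hF hm hk (hup 1 one_pos)
    refine ⟨hz, ?_⟩
    have hmr'' : m ≤ r := by exact_mod_cast hmr'
    rcases hmr''.lt_or_eq with h1 | h1
    · exact Or.inl (hlt.2 h1)
    right
    obtain ⟨A, hA, h3, h4⟩ := hforth h1 hz
    refine ⟨hmr.2 h1, A, ?_, h3⟩
    have key : 1 ≤ A / (B * regulator g / tors a b ^ 2) := by
      rcases hk.eq_or_lt with h0 | h0
      · -- the product of Birch and Swinnerton-Dyer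
        obtain ⟨A', hA', h5, h6⟩ := prod_lim hΔ hrs hgr hF one_pos hm hz
        rw [h1] at h5 h6
        have hAA : A' = A := by
          rw [h3] at h5
          exact_mod_cast h5.symm
        rw [hAA] at h6
        have h7 := (h6.log (by positivity)).comp Real.tendsto_exp_atTop
        have h8 : ∀ δ : ℝ, 0 < δ →
            Real.log (√2 * Real.exp (-(r * psi (1 + 1))) / A) ≤ Real.log (K / c k) + δ - r := by
          intro δ hδ
          have h9 := Real.tendsto_exp_atTop.eventually (hup δ hδ)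
          have h10 : ∀ᶠ τ : ℝ in atTop, lz a b τ ≤ r * Real.log τ + (Real.log (K / c k) + δ) := by
            filter_upwards [h9] with τ h11
            rw [Real.log_exp] at h11
            unfold lz
            rwa [h0]
          obtain ⟨C', hC'⟩ := mean_upper a b h10
          have h12 : Tendsto (fun T : ℝ => Real.log (K / c k) + δ - r + C' / T) atTop
              (𝓝 (Real.log (K / c k) + δ - r + 0)) :=
            (tendsto_const_nhds.div_atTop tendsto_id).const_add _
          rw [add_zero] at h12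
          refine le_of_tendsto_of_tendsto h7 h12 ?_
          filter_upwards [hC', eventually_gt_atTop 0] with T h13 hT
          simp only [Function.comp_apply, Real.log_exp]
          rw [Real.log_div (rieszProduct_pos a b 1 _).ne' (Real.rpow_pos_of_pos hT _).ne',
            Real.log_rpow hT]
          exact h13
        have h9 : Real.log (√2 * Real.exp (-(r * psi (1 + 1))) / A) ≤ Real.log (K / c k) - r := by
          refine le_of_forall_pos_le_add fun δ hδ => ?_
          have := h8 δ hδ
          linarith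
        have h10 : Real.log (√2 * Real.exp (-(r * psi (1 + 1))) / A) =
            Real.log (√2 / A) - r * psi (0 + 1) - r := by
          rw [mul_div_right_comm, Real.log_mul (by positivity) (Real.exp_pos _).ne', Real.log_exp,
            psi_two]
          ring
        have h11 : K / c k = √2 / (B * regulator g / tors a b ^ 2) *
            Real.exp (-(r * psi (0 + 1))) := by
          rw [hc, hK, ← h0, Real.exp_neg]
          field_simp
        rw [h10, h11, Real.log_mul (by positivity) (Real.exp_pos _).ne', Real.log_exp] at h9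
        have h12 : Real.log (√2 / A) ≤ Real.log (√2 / (B * regulator g / tors a b ^ 2)) := by
          linarith
        rw [Real.log_le_log_iff (by positivity) (by positivity),
          div_le_div_iff_of_pos_left h20 hA hBR] at h12
        rwa [one_le_div hBR]
      · have h5 := h4 k h0
        rw [hcK] at h5
        have h6 : c k ≤ c k * (A / (B * regulator g / tors a b ^ 2)) := by
          refine le_of_forall_pos_le_add fun ε hε => ?_
          have := ge_of_tendsto h5 (h ε hε)
          linarith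
        have h7 := hc0 k
        exact le_of_mul_le_mul_left (by linarith) h7
    rwa [one_le_div hBR] at key
  tfae_finish

end Pool.Agent.Results.MP_92892c_nt.LeadingTermLowerBound
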