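import Pool.Agent.TH270.MS.EQ3
import Pool.Agent.TH270.MS.GrowthF
import Pool.Agent.TH941.Newform
import Pool.Agent.TH942.Lead

/-!
# The leading-term formula of Birch and Swinnerton-Dyer from the original product, in logarithmic mean

Let `E : y² = x³ + a x + b` be an elliptic curve over `ℚ`, `a, b ∈ ℤ`, let `F` be the entire continuation of
its incomplete `L`-series (the Euler factors at the primes dividing `2Δ` are removed), `f` its newform, `r` the
rank, `Reg` the regulator for the pairing of the problem (`⟨P, P⟩ = lim h(x(2^k P)) / 4^k`), `T` the number of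
rational torsion points, `V_r` the volume of the unit ball of `ℝ^r`, `N(x)` the number of rational points (with
the point at infinity) whose `x`-coordinate `m/n` has `max (|m|, n) ≤ x`, `N_p` the number of affine points
modulo `p`, and let

`P(x) = ∏_{p ≤ x, p ∤ 2Δ} (N_p + 1)/p`

be the ORIGINAL product of Birch and Swinnerton-Dyer (sharp cut-off),
`P*(x) = P(x) exp (∑_{√x < p ≤ x} (a_p² - 2p)/(2p²))`. It is shown, for every such curve and every real `B > 0`,
that the following are EQUIVALENT:

* the order of `F` at `1` is the rank `r`, `F^{(r)}(1)/r! = B · Reg / T²`, and `F` has no zeros with `Re s > 1` (by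
  the functional equation: the Riemann hypothesis for `E`);
* `N(x)² / P(x)` is `V_r² B e^{-rγ} / √2` in logarithmic mean:
  `(log X)⁻¹ ∫_e^X |log (N(x)² / (P(x) V_r² B e^{-rγ} / √2))| dx/x → 0`;
* the same in logarithmic mean square;
* `∫_e^∞ (log (B Reg P*(x) / (e^{rγ} T² (log x)^r)))² dx/x < ∞`.

The conjecture of Birch and Swinnerton-Dyer is that the order is the rank and that the formula holds with
`B = Ω · #Ш · ∏ c_p · ∏_{p ∣ 2Δ} E_p(1)`, `E_p(s)` the inverse of the removed Euler factor at `p`. So the full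
conjecture together with the Riemann hypothesis is equivalent to one formula for the numbers of points, rational
and modulo primes, with the original product. Goldfeld (1982) proved that a pointwise asymptotic
`P(x) ∼ A (log x)^m` implies `A = √2 e^{mγ} m! / F^{(m)}(1)` and the Riemann hypothesis; there the converse is
open (it is stronger than the Riemann hypothesis), whereas in logarithmic mean both directions are proved here.
For smoothed products (Riesz means of order `k > 0`) see `RieszFormula`.

Proof. By Néron's theorem `N(x) ∼ T V_r (log x)^{r/2} / √Reg`. For the product, see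
`MP_3283e1_nt/MeanSquareLaw`: under the Riemann hypothesis the Laplace transform of the deviation of the sum over
the prime powers is locally square integrable on the central line, uniformly up to the boundary, where the
logarithmic singularities at the zeros are controlled by the polynomial growth of `F` to the left of the centre;
Plancherel's theorem gives square integrability. Conversely the logarithmic means continue the Laplace
transform. The difference between primes and prime powers is treated with the theorem of Rankin and Selberg.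
-/

set_option autoImplicit false

namespace Pool.Agent.Results.MP_92892c_nt.MeanSquareFormula

open Pool.Agent.W263.BSD Filter Topology Classical MeasureTheory Set
open CongruenceSubgroup UpperHalfPlane
open Pool.Agent.TH270.MS Pool.Agent.TH270.MS.EQ
open scoped MatrixGroups

/-- The group of rational points of `y² = x³ + a x + b`. -/
abbrev Pts (a b : ℤ) : Type := TH942.SPt (a : ℚ) (b : ℚ)

/-- The rank. -/
noncomputable def rank (a b : ℤ) : ℕ := Module.finrank ℤ (Pts a b)

/-- The height `log max (|m|, n)` of the `x`-coordinate `m / n` (`0` at infinity). -/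
noncomputable def ht {a b : ℤ} : Pts a b → ℝ
  | .zero => 0
  | .some x _ _ => Real.log (max x.num.natAbs x.den : ℕ)

/-- The canonical height `lim h(2^k P) / 4^k`. -/
noncomputable def canHt {a b : ℤ} (P : Pts a b) : ℝ :=
  limUnder atTop (fun k : ℕ => ht ((2 ^ k : ℕ) • P) / 4 ^ k)

/-- `P_1, …, P_r` is a basis of the group of rational points modulo torsion: every point is, in a
unique way, an integral combination of the `P_i` plus a point of finite order. -/
def IsMWBasis {a b : ℤ} {r : ℕ} (g : Fin r → Pts a b) : Prop :=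
  ∀ P : Pts a b, ∃! n : Fin r → ℤ, IsOfFinAddOrder (P - ∑ i, n i • g i)

/-- The regulator: the determinant of the pairing `⟨P, Q⟩ = (ĥ(P + Q) - ĥ(P) - ĥ(Q)) / 2`, for which
`⟨P, P⟩ = ĥ(P) = lim h(2^k P) / 4^k`. -/
noncomputable def regulator {a b : ℤ} {r : ℕ} (g : Fin r → Pts a b) : ℝ :=
  Matrix.det (Matrix.of fun i j => (canHt (g i + g j) - canHt (g i) - canHt (g j)) / 2)

/-- The number of rational torsion points. -/
noncomputable def tors (a b : ℤ) : ℕ := Nat.card {t : Pts a b // IsOfFinAddOrder t}

/-- `N(X)`: the number of rational points with `h(P) ≤ log X`. -/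
noncomputable def pointsUpTo (a b : ℤ) (X : ℝ) : ℕ := Nat.card {P : Pts a b // ht P ≤ Real.log X}

/-- The volume of the unit ball of `ℝ^r`. -/
noncomputable def ballVol (r : ℕ) : ℝ := √Real.pi ^ r / Real.Gamma (r / 2 + 1)

/-- `P(x)`: the product of `(N_p + 1) / p` over the primes `p ≤ x`, `p ∤ 2Δ`. -/
noncomputable def product (a b : ℤ) (x : ℝ) : ℝ :=
  ∏ p ∈ (Finset.range (⌊x⌋₊ + 1)).filter (GoodPrime a b), (((pointCount a b p : ℝ) + 1) / p)

/-- `P*(x) = P(x) exp (∑ (a_p² - 2p)/(2p²))`, the sum over the primes `√x < p ≤ x`, `p ∤ 2Δ`, `a_p = p - N_p`. -/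
noncomputable def productStar (a b : ℤ) (x : ℝ) : ℝ :=
  product a b x * Real.exp (∑ p ∈ (Finset.range (⌊x⌋₊ + 1)).filter
    (fun p => GoodPrime a b p ∧ √x < p),
      (((p : ℝ) - pointCount a b p) ^ 2 - 2 * p) / (2 * (p : ℝ) ^ 2))

/-- The `n`-th Fourier coefficient of `f`. -/
noncomputable def coef {N : ℕ} (f : CuspForm (Gamma0 N : Subgroup (GL (Fin 2) ℝ)) 2) (n : ℕ) : ℂ :=
  (qExpansion 1 f).coeff n

/-- `f ∈ S_2(Γ₀(N))` is the newform of the elliptic curve `E : y² = x³ + a x + b` of conductor `N`: the
Fourier coefficients `c(n)` of `f` are real with `c(1) = 1`, they satisfy the Hecke relations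
`c(mn) = c(m) c(n)` for coprime `m`, `n` and `c(p^(j+2)) = c(p) c(p^(j+1)) - p c(p^j)` (without the last
term if `p ∣ N`), `c(p) = a_p = p - N_p` (`N_p` affine points) for all primes `p ∤ 2Δ`, `|c(p)| ≤ 2 √p` for
all `p ∤ N` (Hasse) and `c(p) = 0, 1, -1` for `p ∣ N`. -/
structure IsNewformOf (a b : ℤ) (N : ℕ) (f : CuspForm (Gamma0 N : Subgroup (GL (Fin 2) ℝ)) 2) :
    Prop where
  one : coef f 1 = 1
  real : ∀ n, (coef f n).im = 0
  mul : ∀ m n : ℕ, Nat.Coprime m n → coef f (m * n) = coef f m * coef f n
  pow : ∀ p j : ℕ, p.Prime → coef f (p ^ (j + 2)) = coef f p * coef f (p ^ (j + 1)) -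
      (if p ∣ N then 0 else (p : ℂ) * coef f (p ^ j))
  points : ∀ p : ℕ, GoodPrime a b p → coef f p = (p : ℂ) - (pointCount a b p : ℂ)
  good : ∀ p : ℕ, p.Prime → ¬ p ∣ N → ‖coef f p‖ ≤ 2 * Real.sqrt p
  bad : ∀ p : ℕ, p.Prime → p ∣ N → coef f p = 0 ∨ coef f p = 1 ∨ coef f p = -1

theorem hecke {a b : ℤ} {N : ℕ} {f : CuspForm (Gamma0 N : Subgroup (GL (Fin 2) ℝ)) 2}
    (hf : IsNewformOf a b N f) : Pool.Agent.TH941.Hecke f where
  one := hf.one
  real := hf.real
  mul := hf.mul
  pow := hf.pow
  good := hf.good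
  bad := fun p hp h => by
    rcases hf.bad p hp h with h1 | h1 | h1
    · have h2 : ‖coef f p‖ ≤ 1 := by rw [h1]; simp
      exact h2
    · have h2 : ‖coef f p‖ ≤ 1 := by rw [h1]; simp
      exact h2
    · have h2 : ‖coef f p‖ ≤ 1 := by rw [h1]; simp
      exact h2

variable {a b : ℤ} {F : ℂ → ℂ}

theorem ht_eq (P : Pts a b) : ht P = TH942.sht (K := ℚ) (a := (a : ℚ)) (b := (b : ℚ)) P := by
  cases P with
  | zero => exact TH942.sht_zero.symm
  | some x y h => exact (TH942.sht_some h).symm

/-- the number of points is measurable and locally bounded -/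
theorem bm_points (hfin : ∀ B : ℝ, {P : Pts a b | ht P ≤ B}.Finite) :
    BM fun x => Real.log ((pointsUpTo a b x : ℝ) ^ 2) := by
  have hmono : ∀ x y : ℝ, 0 < x → x ≤ y → pointsUpTo a b x ≤ pointsUpTo a b y := by
    intro x y hx hxy
    have h1 : Finite {P : Pts a b // ht P ≤ Real.log y} := (hfin _).to_subtype
    have h2 := Real.log_le_log hx hxy
    exact Nat.card_le_card_of_injective
      (fun P : {P : Pts a b // ht P ≤ Real.log x} =>
        (⟨P.1, P.2.trans h2⟩ : {P : Pts a b // ht P ≤ Real.log y}))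
      (fun P Q h => Subtype.ext (congrArg (fun z => z.1) h))
  have hone : ∀ x : ℝ, Real.exp 1 ≤ x → 1 ≤ pointsUpTo a b x := by
    intro x hx
    have h1 : Finite {P : Pts a b // ht P ≤ Real.log x} := (hfin _).to_subtype
    have h2 : Nonempty {P : Pts a b // ht P ≤ Real.log x} :=
      ⟨⟨0, by
        have := one_le_log hx
        show (0 : ℝ) ≤ Real.log x
        linarith⟩⟩
    exact Nat.card_pos
  refine ⟨?_, fun Y => ⟨Real.log ((pointsUpTo a b Y : ℝ) ^ 2), fun y h1 h2 => ?_⟩⟩
  · have h1 : MonotoneOn (fun x => (pointsUpTo a b x : ℝ)) (Ioi (Real.exp 1)) := by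
      intro x hx y _ hxy
      show (pointsUpTo a b x : ℝ) ≤ (pointsUpTo a b y : ℝ)
      exact_mod_cast hmono x y ((Real.exp_pos 1).trans hx) hxy
    have h2 := aemeasurable_restrict_of_monotoneOn (μ := volume) measurableSet_Ioi h1
    exact (Real.measurable_log.comp_aemeasurable (h2.pow_const 2)).aestronglyMeasurable
  · have h3 : (1 : ℝ) ≤ pointsUpTo a b y := by exact_mod_cast hone y h1
    have h4 : (pointsUpTo a b y : ℝ) ≤ pointsUpTo a b Y := by
      exact_mod_cast hmono y Y ((Real.exp_pos 1).trans_le h1) h2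
    rw [abs_of_nonneg (Real.log_nonneg (one_le_pow₀ h3))]
    exact Real.log_le_log (by positivity) (pow_le_pow_left₀ (by positivity) h4 2)

theorem dev_sub (hΔ : 4 * a ^ 3 + 27 * b ^ 2 ≠ 0) (hrs : Tendsto (rsSum a b) atTop (𝓝 0))
    (ρ : ℝ) {C : ℝ} (hC : 0 < C) :
    Tendsto (fun x => dev a b ρ C x - devStar a b ρ C x) atTop (𝓝 0) := by
  have h1 := (corr_lim hΔ hrs).const_sub (-(Real.log 2 / 2))
  rw [sub_self] at h1
  refine h1.congr' ?_
  filter_upwards [eventually_ge_atTop (Real.exp 1)] with x hx
  rw [dev_eq hC hx, devStar_eq hC hx]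
  ring

/-- **The leading-term formula and the Riemann hypothesis from the original product.** -/
theorem result (a b : ℤ) (hΔ : 4 * a ^ 3 + 27 * b ^ 2 ≠ 0) (F : ℂ → ℂ) (hF : IsLSeries a b F)
    (N : ℕ) [NeZero N] (f : CuspForm (Gamma0 N : Subgroup (GL (Fin 2) ℝ)) 2)
    (hf : IsNewformOf a b N f) :
    (∃ g : Fin (rank a b) → Pts a b, IsMWBasis g) ∧
    ∀ g : Fin (rank a b) → Pts a b, IsMWBasis g → 0 < regulator g ∧
      ∀ B : ℝ, 0 < B → List.TFAE [
        analyticOrderAt F 1 = rank a b ∧
          iteratedDeriv (rank a b) F 1 / (rank a b).factorial =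
            ((B * regulator g / tors a b ^ 2 : ℝ) : ℂ) ∧ ∀ s : ℂ, 1 < s.re → F s ≠ 0,
        Tendsto (fun X : ℝ => (∫ x in Real.exp 1..X,
          |Real.log ((pointsUpTo a b x : ℝ) ^ 2 / (product a b x *
            (ballVol (rank a b) ^ 2 * B *
              Real.exp (-(rank a b * Real.eulerMascheroniConstant)) / √2)))| / x) / Real.log X)
          atTop (𝓝 0),
        Tendsto (fun X : ℝ => (∫ x in Real.exp 1..X,
          Real.log ((pointsUpTo a b x : ℝ) ^ 2 / (product a b x *
            (ballVol (rank a b) ^ 2 * B *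
              Real.exp (-(rank a b * Real.eulerMascheroniConstant)) / √2))) ^ 2 / x) / Real.log X)
          atTop (𝓝 0),
        IntegrableOn (fun x : ℝ => Real.log (B * regulator g * productStar a b x /
          (Real.exp (rank a b * Real.eulerMascheroniConstant) * tors a b ^ 2 *
            Real.log x ^ (rank a b))) ^ 2 / x) (Ioi (Real.exp 1))] := by
  have hrs : Tendsto (rsSum a b) atTop (𝓝 0) :=
    (hecke hf).rsSum_tendsto hΔ fun p hp => hf.points p hp
  obtain ⟨C₀, κ, hgr⟩ := growth_F hΔ hF (hecke hf) fun p hp => hf.points p hp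
  have hD : 4 * (a : ℚ) ^ 3 + 27 * (b : ℚ) ^ 2 ≠ 0 := by exact_mod_cast hΔ
  obtain ⟨q, C, hq0, hq, hqh, hqlim, hcount⟩ := TH942.neron hD
  have hfin : ∀ B : ℝ, {P : Pts a b | ht P ≤ B}.Finite := by
    intro B
    simp only [ht_eq]
    exact TH942.sfinite_ht B
  have hcan : ∀ P : Pts a b, canHt P = q P := by
    intro P
    unfold canHt
    apply Tendsto.limUnder_eq
    have := hqlim P
    simpa only [← ht_eq] using this
  set r := rank a b with hr
  -- a basis
  obtain ⟨r', g', hg'⟩ := TH942.exists_basis (TH942.sfg hD)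
  have hr' : r = r' := by
    have := TH942.card_basis hg'
    rw [Fintype.card_fin] at this
    exact this
  have hbasis : ∃ g : Fin r → Pts a b, IsMWBasis g := by
    rw [hr']
    exact ⟨g', hg'⟩
  refine ⟨hbasis, fun g hg => ?_⟩
  -- the number of points
  obtain ⟨hreg', hlim'⟩ := hcount (Fin r) g hg
  have hrg : regulator g = (TH942.gram q g).det := by
    unfold regulator TH942.gram
    simp only [hcan]
  have hreg : 0 < regulator g := by rw [hrg]; exact hreg'
  have hT0 : 0 < tors a b := by
    have h1 : Finite {t : Pts a b // IsOfFinAddOrder t} := by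
      have h2 : {t : Pts a b | IsOfFinAddOrder t} ⊆ {P | ht P ≤ C} := by
        intro t ht'
        have h9 := TH942.q_comb q hq g t ht' 0
        simp only [Pi.zero_apply, zero_smul, Finset.sum_const_zero, zero_add, Int.cast_zero,
          zero_mul] at h9
        have h10 := abs_le.1 (hqh t)
        simp only [Set.mem_ofPred_eq, ht_eq]
        linarith
      exact ((hfin C).subset h2).to_subtype
    have h2 : Nonempty {t : Pts a b // IsOfFinAddOrder t} := ⟨⟨0, IsOfFinAddOrder.zero⟩⟩
    exact Nat.card_pos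
  have hT : (0 : ℝ) < tors a b := by exact_mod_cast hT0
  have hV : 0 < ballVol r := TH942.ballVol_pos r
  have hsr2 : √(regulator g) ^ 2 = regulator g := Real.sq_sqrt hreg.le
  set K : ℝ := tors a b ^ 2 * ballVol r ^ 2 / regulator g with hK
  have hK0 : 0 < K := by positivity
  have hN : Tendsto (fun X : ℝ => (pointsUpTo a b X : ℝ) ^ 2 / Real.log X ^ (r : ℝ)) atTop
      (𝓝 K) := by
    have h1 := (hlim'.comp Real.tendsto_log_atTop).pow 2
    have h2 : (Nat.card {t : TH942.SPt (a : ℚ) (b : ℚ) // IsOfFinAddOrder t} *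
        TH942.ballVol (Fintype.card (Fin r)) / √ (TH942.gram q g).det) ^ 2 = K := by
      rw [← hrg, div_pow, mul_pow, hsr2, Fintype.card_fin]
      rfl
    rw [h2] at h1
    refine h1.congr' ?_
    filter_upwards [eventually_gt_atTop 1] with X hX
    have hl : 0 < Real.log X := Real.log_pos hX
    simp only [Function.comp_apply, Fintype.card_fin]
    have h6 : (Real.log X ^ ((r : ℝ) / 2)) ^ 2 = Real.log X ^ (r : ℝ) := by
      rw [← Real.rpow_natCast, ← Real.rpow_mul hl.le]
      congr 1
      push_cast
      ring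
    rw [div_pow, h6]
    unfold pointsUpTo
    simp only [ht_eq]
  have hNpos : ∀ x : ℝ, Real.exp 1 ≤ x → (0 : ℝ) < (pointsUpTo a b x : ℝ) ^ 2 := by
    intro x hx
    have h1 : Finite {P : Pts a b // ht P ≤ Real.log x} := (hfin _).to_subtype
    have h2 : Nonempty {P : Pts a b // ht P ≤ Real.log x} :=
      ⟨⟨0, by
        have := one_le_log hx
        show (0 : ℝ) ≤ Real.log x
        linarith⟩⟩
    have h3 : 0 < pointsUpTo a b x := Nat.card_pos
    have h4 : (0 : ℝ) < pointsUpTo a b x := by exact_mod_cast h3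
    positivity
  refine ⟨hreg, fun B hB => ?_⟩
  have h20 : (0 : ℝ) < √2 := by positivity
  -- the constants
  set γ := Real.eulerMascheroniConstant with hγ
  set c : ℝ := ballVol r ^ 2 * B * Real.exp (-(r * γ)) / √2 with hc
  have hc0 : 0 < c := by positivity
  set C' : ℝ := √2 * Real.exp (r * γ) * tors a b ^ 2 / (B * regulator g) with hC'
  have hC'0 : 0 < C' := by positivity
  have hKc : K / c = C' := by
    rw [hK, hc, hC', Real.exp_neg]
    have := Real.exp_pos ((r : ℝ) * γ)
    field_simp
  have hBR : √2 * Real.exp (r * γ) / C' = B * regulator g / tors a b ^ 2 := by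
    rw [hC']
    have := Real.exp_pos ((r : ℝ) * γ)
    field_simp
  have t := curve_law hΔ hF hrs (by norm_num : (0 : ℝ) < 1 / 8) hgr (r : ℝ) hC'0
  set u : ℝ → ℝ := fun x => Real.log ((pointsUpTo a b x : ℝ) ^ 2 / (product a b x * c)) with hu
  have hueq : ∀ x : ℝ, Real.exp 1 ≤ x → u x =
      Real.log ((pointsUpTo a b x : ℝ) ^ 2) - Real.log (bsdProduct a b x) - Real.log c := by
    intro x hx
    have h1 := bsdProduct_pos (a := a) (b := b) x
    show Real.log ((pointsUpTo a b x : ℝ) ^ 2 / (bsdProduct a b x * c)) = _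
    rw [Real.log_div (hNpos x hx).ne' (by positivity), Real.log_mul h1.ne' hc0.ne']
    ring
  have bmu : BM u := BM.congr (((bm_points hfin).sub (bm_product a b)).sub (BM.const (Real.log c)))
    fun x hx => (hueq x hx).symm
  have bmd := bm_dev a b (ρ := r) hC'0
  have bms := bm_devStar a b (ρ := r) hC'0
  have d1 : Tendsto (fun x => u x - -dev a b r C' x) atTop (𝓝 0) := by
    have h1 := (hN.log hK0.ne').sub_const (Real.log K)
    rw [sub_self] at h1
    refine h1.congr' ?_
    filter_upwards [eventually_ge_atTop (Real.exp 1)] with x hx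
    have hl : 0 < Real.log x := by linarith [one_le_log hx]
    rw [hueq x hx, dev_eq hC'0 hx, Real.log_div (hNpos x hx).ne'
      (Real.rpow_pos_of_pos hl _).ne', Real.log_rpow hl, ← hKc, Real.log_div hK0.ne' hc0.ne']
    ring
  have d2 : Tendsto (fun x => u x - -devStar a b r C' x) atTop (𝓝 0) := by
    have h1 := d1.sub (dev_sub hΔ hrs (r : ℝ) hC'0)
    rw [sub_zero] at h1
    refine h1.congr fun x => ?_
    ring
  have c1 : (analyticOrderAt F 1 = r ∧ iteratedDeriv r F 1 / r.factorial =
      ((B * regulator g / tors a b ^ 2 : ℝ) : ℂ) ∧ ∀ s : ℂ, 1 < s.re → F s ≠ 0) ↔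
      ((∀ s : ℂ, 1 < s.re → F s ≠ 0) ∧ ∃ m : ℕ, (r : ℝ) = m ∧ analyticOrderAt F 1 = m ∧
        iteratedDeriv m F 1 / (m.factorial : ℂ) =
          ((√2 * Real.exp (m * γ) / C' : ℝ) : ℂ)) := by
    constructor
    · rintro ⟨h1, h2, h3⟩
      refine ⟨h3, r, rfl, h1, ?_⟩
      rw [hBR, h2]
    · rintro ⟨h3, m, hm, h1, h2⟩
      have hmr : r = m := by exact_mod_cast hm
      subst hmr
      refine ⟨h1, ?_, h3⟩
      rw [h2, hBR]
  have c2 : (fun x : ℝ => Real.log (B * regulator g * productStar a b x /
          (Real.exp (r * γ) * tors a b ^ 2 * Real.log x ^ r)) ^ 2 / x) =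
      fun x : ℝ => devStar a b r C' x ^ 2 / x := by
    funext x
    have h1 : B * regulator g * productStar a b x /
          (Real.exp (r * γ) * tors a b ^ 2 * Real.log x ^ r) =
        √2 * bsdStar a b x / (C' * Real.log x ^ (r : ℝ)) := by
      have h2 : productStar a b x = bsdStar a b x := rfl
      rw [h2, hC', Real.rpow_natCast]
      have := Real.exp_pos ((r : ℝ) * γ)
      by_cases hl : Real.log x ^ r = 0
      · rw [hl]
        simp
      · field_simp
    rw [h1]
    rfl
  rw [c1, c2]
  tfae_have 1 ↔ 4 := t.out 0 3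
  tfae_have 4 → 3 := by
    intro h
    refine sq_lmean bmu.sq.li (g := fun x => -devStar a b r C' x) ?_ (bmu.sub bms.neg).sq.li d2
    simpa only [neg_sq] using h
  tfae_have 3 → 2 := fun h => lmean_of_sq bmu.li bmu.sq.li h
  tfae_have 2 → 4 := by
    intro h
    have h1 := (lmean_iff bmu.li bmd.neg.li d1).1 h
    simp only [abs_neg] at h1
    exact (t.out 1 3).1 h1
  tfae_finish

end Pool.Agent.Results.MP_92892c_nt.MeanSquareFormula
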