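import Pool.Agent.TH942.RZ.Back
import Pool.Agent.TH942.Lead

/-!
# The leading-term formula of Birch and Swinnerton-Dyer from numbers of points: Riesz means

Let `C : y² = x³ + a x + b` be an elliptic curve over `ℚ`, `a, b ∈ ℤ`, let `F` be the entire continuation of
its incomplete `L`-series (the Euler factors at the primes dividing `2Δ` are removed), `f` its newform, `r` the
rank, `Reg` the regulator for the pairing of the problem (`⟨P, P⟩ = lim h(x(2^k P)) / 4^k`), `T` the number of
rational torsion points, `V_r` the volume of the unit ball of `ℝ^r`, `N(X)` the number of rational points (with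
the point at infinity) whose `x`-coordinate `m/n` has `max (|m|, n) ≤ X` and `N_p` the number of affine points
modulo `p`. For real `k > 0` let

`Π_k(X) = ∏_{p ≤ X, p ∤ 2Δ} ((N_p + 1)/p) ^ ((1 - log p / log X)^k)`,   `ψ = Γ'/Γ`

(`k = 0` is the original product of Birch and Swinnerton-Dyer; `log Π_k` is the Riesz mean of order `k` of its
logarithm). It is shown, for every such curve and every real `B > 0`, that the following are EQUIVALENT:

* the order of `F` at `1` is the rank `r`, `F^{(r)}(1)/r! = B · Reg / T²`, and `F` has no zeros with `Re s > 1` (by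
  the functional equation: the Riemann hypothesis for `C`);
* `N(X)² / Π_k(X) → V_r² B e^{r ψ(k+1)} / √2` for every `k > 0`;
* the same for one `k > 0`.

The conjecture of Birch and Swinnerton-Dyer is that the order is the rank and that the formula holds with
`B = Ω · #Ш · ∏ c_p · ∏_{p ∣ 2Δ} E_p(1)`, `E_p(s)` the inverse of the removed Euler factor at `p`. So the full
conjecture together with the Riemann hypothesis is equivalent to one limit formula for the numbers of points,
rational and modulo primes, in which regulator, torsion and `L`-function do not occur. For `k = 0` (where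
`e^{ψ(1)} = e^{-γ}`) Goldfeld (1982) proved that an asymptotic formula `∼ A (log X)^m` implies
`A = √2 e^{mγ} m! / F^{(m)}(1)` and the Riemann hypothesis; the converse is open for `k = 0`, whereas here both
directions are proved for all `k > 0`.

Proof. `log Π_k(e^T) = Γ(k+1) (2πi)⁻¹ ∫ D(z/T) e^z z^{-k-1} dz` over `Re z = 1`, where
`D(s) = ∑ log ((N_p + 1)/p) p^{-s} = - log L(C, 1 + s) + O(1 + log (1 + |s|/Re s))`. Near `z = 0` the integrand is
compared with that of `m log T - m log z + κ`; this gives `ψ(k+1)`, and the theorem of Rankin and Selberg gives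
the factor `√2`. The remainder: the modular form gives `|L(C, 1 + s)| ≤ C |s| (Re s)^{-2}`, and for
`log L(C, 1 + s)`, of which only the real part is bounded above, Poisson's formula and the theorem of Borel and
Carathéodory give `∫ |log L(C, 1 + x + it)| (1 + |t|)^{-1-k} dt = O(log² (1/x))`. The converse is the continuation
of Laplace transforms.
-/

set_option autoImplicit false

namespace Pool.Agent.Results.MP_92892c_nt.RieszFormula

open Pool.Agent.W263.BSD Filter Topology Classical MeasureTheory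
open CongruenceSubgroup UpperHalfPlane
open scoped MatrixGroups

/-- The group of rational points of `y² = x³ + a x + b`. -/
abbrev Pts (a b : ℤ) : Type := TH942.SPt (a : ℚ) (b : ℚ)

/-- The rank. -/
noncomputable def rank (a b : ℤ) : ℕ := Module.finrank ℤ (Pts a b)

/-- The height `log max (|m|, n)` of the `x`-coordinate `m / n` (`0` at infinity). -/
noncomputable def ht {a b : ℤ} : Pts a b → ℝ
  | .zero => 0
  | .some x _ _ => Real.log (max x.num.natAbs x.den : ℕ)

/-- The canonical height `lim h(2^k P) / 4^k`. -/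
noncomputable def canHt {a b : ℤ} (P : Pts a b) : ℝ :=
  limUnder atTop (fun k : ℕ => ht ((2 ^ k : ℕ) • P) / 4 ^ k)

/-- `P_1, …, P_r` is a basis of the group of rational points modulo torsion: every point is, in a
unique way, an integral combination of the `P_i` plus a point of finite order. -/
def IsMWBasis {a b : ℤ} {r : ℕ} (g : Fin r → Pts a b) : Prop :=
  ∀ P : Pts a b, ∃! n : Fin r → ℤ, IsOfFinAddOrder (P - ∑ i, n i • g i)

/-- The regulator: the determinant of the pairing `⟨P, Q⟩ = (ĥ(P + Q) - ĥ(P) - ĥ(Q)) / 2`, for which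
`⟨P, P⟩ = ĥ(P) = lim h(2^k P) / 4^k`. -/
noncomputable def regulator {a b : ℤ} {r : ℕ} (g : Fin r → Pts a b) : ℝ :=
  Matrix.det (Matrix.of fun i j => (canHt (g i + g j) - canHt (g i) - canHt (g j)) / 2)

/-- The number of rational torsion points. -/
noncomputable def tors (a b : ℤ) : ℕ := Nat.card {t : Pts a b // IsOfFinAddOrder t}

/-- `N(X)`: the number of rational points with `h(P) ≤ log X`. -/
noncomputable def pointsUpTo (a b : ℤ) (X : ℝ) : ℕ := Nat.card {P : Pts a b // ht P ≤ Real.log X}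

/-- The volume of the unit ball of `ℝ^r`. -/
noncomputable def ballVol (r : ℕ) : ℝ := √Real.pi ^ r / Real.Gamma (r / 2 + 1)

/-- `Π_k(X)`: the product over the primes `p ≤ X`, `p ∤ 2Δ`, of the powers of `(N_p + 1) / p` with
exponents `(1 - log p / log X)^k`. -/
noncomputable def rieszProduct (a b : ℤ) (k X : ℝ) : ℝ :=
  ∏ p ∈ (Finset.range (⌊X⌋₊ + 1)).filter (GoodPrime a b),
    (((pointCount a b p : ℝ) + 1) / p) ^ ((1 - Real.log p / Real.log X) ^ k)

/-- `ψ(x) = Γ'(x) / Γ(x)`. -/
noncomputable def psi (x : ℝ) : ℝ := deriv Real.Gamma x / Real.Gamma x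

/-- The `n`-th Fourier coefficient of `f`. -/
noncomputable def coef {N : ℕ} (f : CuspForm (Gamma0 N : Subgroup (GL (Fin 2) ℝ)) 2) (n : ℕ) : ℂ :=
  (qExpansion 1 f).coeff n

/-- `f ∈ S_2(Γ₀(N))` is the newform of the elliptic curve `E : y² = x³ + a x + b` of conductor `N`: the
Fourier coefficients `c(n)` of `f` are real with `c(1) = 1`, they satisfy the Hecke relations
`c(mn) = c(m) c(n)` for coprime `m`, `n` and `c(p^(j+2)) = c(p) c(p^(j+1)) - p c(p^j)` (without the last
term if `p ∣ N`), `c(p) = a_p = p - N_p` (`N_p` affine points) for all primes `p ∤ 2Δ`, `|c(p)| ≤ 2 √p` for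
all `p ∤ N` (Hasse) and `c(p) = 0, 1, -1` for `p ∣ N`. -/
structure IsNewformOf (a b : ℤ) (N : ℕ) (f : CuspForm (Gamma0 N : Subgroup (GL (Fin 2) ℝ)) 2) :
    Prop where
  one : coef f 1 = 1
  real : ∀ n, (coef f n).im = 0
  mul : ∀ m n : ℕ, Nat.Coprime m n → coef f (m * n) = coef f m * coef f n
  pow : ∀ p j : ℕ, p.Prime → coef f (p ^ (j + 2)) = coef f p * coef f (p ^ (j + 1)) -
      (if p ∣ N then 0 else (p : ℂ) * coef f (p ^ j))
  points : ∀ p : ℕ, GoodPrime a b p → coef f p = (p : ℂ) - (pointCount a b p : ℂ)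
  good : ∀ p : ℕ, p.Prime → ¬ p ∣ N → ‖coef f p‖ ≤ 2 * Real.sqrt p
  bad : ∀ p : ℕ, p.Prime → p ∣ N → coef f p = 0 ∨ coef f p = 1 ∨ coef f p = -1

variable {a b : ℤ} {F : ℂ → ℂ}

theorem hecke {N : ℕ} {f : CuspForm (Gamma0 N : Subgroup (GL (Fin 2) ℝ)) 2}
    (hf : IsNewformOf a b N f) : Pool.Agent.TH941.Hecke f where
  one := hf.one
  real := hf.real
  mul := hf.mul
  pow := hf.pow
  good := hf.good
  bad := fun p hp h => by
    rcases hf.bad p hp h with h1 | h1 | h1
    · have h2 : ‖coef f p‖ ≤ 1 := by rw [h1]; simp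
      exact h2
    · have h2 : ‖coef f p‖ ≤ 1 := by rw [h1]; simp
      exact h2
    · have h2 : ‖coef f p‖ ≤ 1 := by rw [h1]; simp
      exact h2

theorem rs {N : ℕ} [NeZero N] {f : CuspForm (Gamma0 N : Subgroup (GL (Fin 2) ℝ)) 2}
    (hΔ : 4 * a ^ 3 + 27 * b ^ 2 ≠ 0) (hf : IsNewformOf a b N f) :
    Tendsto (Pool.Agent.W263.BSD.rsSum a b) atTop (𝓝 0) :=
  (hecke hf).rsSum_tendsto hΔ fun p hp => hf.points p hp

theorem ht_eq (P : Pts a b) : ht P = TH942.sht (K := ℚ) (a := (a : ℚ)) (b := (b : ℚ)) P := by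
  cases P with
  | zero => exact TH942.sht_zero.symm
  | some x y h => exact (TH942.sht_some h).symm

theorem factor_pos {p : ℕ} (hp : GoodPrime a b p) : 0 < ((pointCount a b p : ℝ) + 1) / p := by
  have hp0 : (0 : ℝ) < p := by exact_mod_cast hp.1.pos
  positivity

theorem rieszProduct_pos (a b : ℤ) (k X : ℝ) : 0 < rieszProduct a b k X :=
  Finset.prod_pos fun _ hp => Real.rpow_pos_of_pos (factor_pos (Finset.mem_filter.1 hp).2) _

theorem log_rieszProduct (a b : ℤ) (k X : ℝ) :
    Real.log (rieszProduct a b k X) = TH942.RZ.rz a b k X := by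
  unfold rieszProduct TH942.RZ.rz
  rw [Real.log_prod fun p hp => (Real.rpow_pos_of_pos (factor_pos (Finset.mem_filter.1 hp).2) _).ne']
  refine Finset.sum_congr rfl fun p hp => ?_
  rw [Real.log_rpow (factor_pos (Finset.mem_filter.1 hp).2)]

theorem loglog_tendsto : Tendsto (fun X : ℝ => Real.log (Real.log X)) atTop atTop :=
  Real.tendsto_log_atTop.comp Real.tendsto_log_atTop

/-- the limit of the products under the Riemann hypothesis -/
theorem prod_lim (hΔ : 4 * a ^ 3 + 27 * b ^ 2 ≠ 0) (hrs : Tendsto (rsSum a b) atTop (𝓝 0))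
    (hgr : ∃ C : ℝ, ∀ s : ℂ, 0 < s.re → ‖PhiF a b F s‖ ≤ C * (1 + ‖s‖) * (1 + 1 / s.re) ^ 2)
    (hF : IsLSeries a b F) {k : ℝ} (hk : 0 < k) {m : ℕ}
    (hm : analyticOrderAt F 1 = m) (hz : ∀ s : ℂ, 1 < s.re → F s ≠ 0) :
    ∃ A : ℝ, 0 < A ∧ iteratedDeriv m F 1 / (m.factorial : ℂ) = (A : ℂ) ∧
      Tendsto (fun X : ℝ => rieszProduct a b k X / Real.log X ^ (m : ℝ)) atTop
        (𝓝 (√2 * Real.exp (-(m * psi (k + 1))) / A)) := by
  obtain ⟨κ, h1, h2⟩ := TH942.RZ.curve_riesz hΔ hrs hgr hF hm hz hk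
  have hE := Real.exp_pos κ
  set E : ℝ := √2 * Real.exp (-(m * psi (k + 1))) with hEd
  have hE0 : 0 < E := by positivity
  change _ = ((E : ℝ) : ℂ) at h2
  have hEc : ((Real.exp κ : ℝ) : ℂ) ≠ 0 := by exact_mod_cast hE.ne'
  refine ⟨E / Real.exp κ, by positivity, ?_, ?_⟩
  · rw [Complex.ofReal_div, eq_div_iff hEc, mul_comm]
    exact h2
  · rw [div_div_cancel₀ hE0.ne']
    have h3 := (Real.continuous_exp.tendsto κ).comp (h1.comp Real.tendsto_log_atTop)
    refine h3.congr' ?_
    filter_upwards [eventually_gt_atTop 1] with X hX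
    have hl : 0 < Real.log X := Real.log_pos hX
    simp only [Function.comp_apply]
    rw [Real.exp_sub, ← TH942.RZ.rz_eq hk hX, ← log_rieszProduct,
      Real.exp_log (rieszProduct_pos a b k X), Real.rpow_def_of_pos hl, mul_comm (m : ℝ)]

/-- a bound of the logarithm of the product gives the half plane -/
theorem zero_free (hF : IsLSeries a b F) {k : ℝ} (hk : 0 < k) {l C : ℝ}
    (hC : C ≠ 0)
    (h : Tendsto (fun X : ℝ => rieszProduct a b k X / Real.log X ^ l) atTop (𝓝 C)) :
    ∀ s : ℂ, 1 < s.re → F s ≠ 0 := by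
  have hC0 : 0 < C := by
    refine lt_of_le_of_ne (ge_of_tendsto h ?_) (Ne.symm hC)
    filter_upwards [eventually_gt_atTop 1] with x hx
    exact (div_pos (rieszProduct_pos a b k x) (Real.rpow_pos_of_pos (Real.log_pos hx) _)).le
  refine TH942.RZ.zero_free_of_loglog hF hk (K := |l| + |Real.log C| + 1) ?_
  have h1 := h.log hC0.ne'
  have h2 : ∀ᶠ X : ℝ in atTop, |Real.log (rieszProduct a b k X / Real.log X ^ l) -
      Real.log C| < 1 := by
    refine ((Metric.tendsto_nhds.1 h1) 1 one_pos).mono fun X hX => ?_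
    rwa [Real.dist_eq] at hX
  filter_upwards [h2, loglog_tendsto.eventually_ge_atTop 1, eventually_gt_atTop 1] with X h3 h4 h5
  have hl : 0 < Real.log X := Real.log_pos h5
  rw [Real.log_div (rieszProduct_pos a b k X).ne' (Real.rpow_pos_of_pos hl _).ne',
    log_rieszProduct, Real.log_rpow hl] at h3
  have h6 := abs_sub_abs_le_abs_sub (TH942.RZ.rz a b k X) (l * Real.log (Real.log X) + Real.log C)
  have h7 : TH942.RZ.rz a b k X - (l * Real.log (Real.log X) + Real.log C) =
      TH942.RZ.rz a b k X - l * Real.log (Real.log X) - Real.log C := by ring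
  rw [h7] at h6
  have h8 := abs_add_le (l * Real.log (Real.log X)) (Real.log C)
  rw [abs_mul, abs_of_nonneg (by linarith : 0 ≤ Real.log (Real.log X))] at h8
  have h9 := abs_nonneg (Real.log C)
  nlinarith

/-- the exponent of a power of `log X` is determined by the limit -/
theorem exponent_unique {u : ℝ → ℝ} {k l A B : ℝ} (hA : A ≠ 0) (hB : B ≠ 0)
    (h1 : Tendsto (fun X : ℝ => u X / Real.log X ^ k) atTop (𝓝 A))
    (h2 : Tendsto (fun X : ℝ => u X / Real.log X ^ l) atTop (𝓝 B)) : k = l := by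
  have h3 := h1.div h2 hB
  have h4 : Tendsto (fun X : ℝ => Real.log X ^ (l - k)) atTop (𝓝 (A / B)) := by
    refine h3.congr' ?_
    filter_upwards [h2.eventually_ne hB, eventually_gt_atTop 1] with X h5 h6
    have hl : 0 < Real.log X := Real.log_pos h6
    have h7 : u X ≠ 0 := fun h => h5 (by rw [h, zero_div])
    have h8 := Real.rpow_pos_of_pos hl k
    have h9 := Real.rpow_pos_of_pos hl l
    simp only [Pi.div_apply]
    rw [Real.rpow_sub hl]
    field_simp
  by_contra hne
  rcases lt_or_gt_of_ne hne with h5 | h5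
  · have h6 := (tendsto_rpow_atTop (by linarith : 0 < l - k)).comp Real.tendsto_log_atTop
    exact not_tendsto_nhds_of_tendsto_atTop h6 _ h4
  · have h6 := (tendsto_rpow_neg_atTop (by linarith : 0 < k - l)).comp Real.tendsto_log_atTop
    have h7 : Tendsto (fun X : ℝ => Real.log X ^ (l - k)) atTop (𝓝 0) := by
      refine h6.congr fun X => ?_
      simp only [Function.comp_apply, neg_sub]
    exact div_ne_zero hA hB (tendsto_nhds_unique h4 h7)

/-- **The leading-term formula and the Riemann hypothesis from Riesz means.** -/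
theorem result (a b : ℤ) (hΔ : 4 * a ^ 3 + 27 * b ^ 2 ≠ 0) (F : ℂ → ℂ) (hF : IsLSeries a b F)
    (N : ℕ) [NeZero N] (f : CuspForm (Gamma0 N : Subgroup (GL (Fin 2) ℝ)) 2)
    (hf : IsNewformOf a b N f) :
    (∃ g : Fin (rank a b) → Pts a b, IsMWBasis g) ∧
    ∀ g : Fin (rank a b) → Pts a b, IsMWBasis g → 0 < regulator g ∧
      ∀ B : ℝ, 0 < B → List.TFAE [
        analyticOrderAt F 1 = rank a b ∧
          iteratedDeriv (rank a b) F 1 / (rank a b).factorial =
            ((B * regulator g / tors a b ^ 2 : ℝ) : ℂ) ∧ ∀ s : ℂ, 1 < s.re → F s ≠ 0,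
        ∀ k : ℝ, 0 < k →
          Tendsto (fun X : ℝ => (pointsUpTo a b X : ℝ) ^ 2 / rieszProduct a b k X) atTop
            (𝓝 (ballVol (rank a b) ^ 2 * B * Real.exp (rank a b * psi (k + 1)) / √2)),
        ∃ k : ℝ, 0 < k ∧
          Tendsto (fun X : ℝ => (pointsUpTo a b X : ℝ) ^ 2 / rieszProduct a b k X) atTop
            (𝓝 (ballVol (rank a b) ^ 2 * B * Real.exp (rank a b * psi (k + 1)) / √2))] := by
  have hrs := rs hΔ hf
  have hgr := TH942.RZ.growth_newform hΔ hF (hecke hf) fun p hp => hf.points p hp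
  have hD : 4 * (a : ℚ) ^ 3 + 27 * (b : ℚ) ^ 2 ≠ 0 := by exact_mod_cast hΔ
  obtain ⟨q, C, hq0, hq, hqh, hqlim, hcount⟩ := TH942.neron hD
  obtain ⟨m, hm⟩ := Pool.Agent.W189.ML.order_finite_all hF 1
  have hfac : ∀ n : ℕ, (n.factorial : ℂ) ≠ 0 := fun n => by exact_mod_cast n.factorial_ne_zero
  have hfin : ∀ B : ℝ, {P : Pts a b | ht P ≤ B}.Finite := by
    intro B
    simp only [ht_eq]
    exact TH942.sfinite_ht B
  have hcan : ∀ P : Pts a b, canHt P = q P := by
    intro P
    unfold canHt
    apply Tendsto.limUnder_eq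
    have := hqlim P
    simpa only [← ht_eq] using this
  set r := rank a b with hr
  -- a basis
  obtain ⟨r', g', hg'⟩ := TH942.exists_basis (TH942.sfg hD)
  have hr' : r = r' := by
    have := TH942.card_basis hg'
    rw [Fintype.card_fin] at this
    exact this
  have hbasis : ∃ g : Fin r → Pts a b, IsMWBasis g := by
    rw [hr']
    exact ⟨g', hg'⟩
  refine ⟨hbasis, fun g hg => ?_⟩
  -- the number of points
  obtain ⟨hreg', hlim'⟩ := hcount (Fin r) g hg
  have hrg : regulator g = (TH942.gram q g).det := by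
    unfold regulator TH942.gram
    simp only [hcan]
  have hreg : 0 < regulator g := by rw [hrg]; exact hreg'
  have hT0 : 0 < tors a b := by
    have h1 : Finite {t : Pts a b // IsOfFinAddOrder t} := by
      have h2 : {t : Pts a b | IsOfFinAddOrder t} ⊆ {P | ht P ≤ C} := by
        intro t ht'
        have h9 := TH942.q_comb q hq g t ht' 0
        simp only [Pi.zero_apply, zero_smul, Finset.sum_const_zero, zero_add, Int.cast_zero,
          zero_mul] at h9
        have h10 := abs_le.1 (hqh t)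
        simp only [Set.mem_ofPred_eq, ht_eq]
        linarith
      exact ((hfin C).subset h2).to_subtype
    have h2 : Nonempty {t : Pts a b // IsOfFinAddOrder t} := ⟨⟨0, IsOfFinAddOrder.zero⟩⟩
    exact Nat.card_pos
  have hT : (0 : ℝ) < tors a b := by exact_mod_cast hT0
  have hV : 0 < ballVol r := TH942.ballVol_pos r
  have hsr : 0 < √(regulator g) := Real.sqrt_pos.2 hreg
  have hsr2 : √(regulator g) ^ 2 = regulator g := Real.sq_sqrt hreg.le
  set K : ℝ := tors a b ^ 2 * ballVol r ^ 2 / regulator g with hK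
  have hK0 : 0 < K := by positivity
  have hN : Tendsto (fun X : ℝ => (pointsUpTo a b X : ℝ) ^ 2 / Real.log X ^ (r : ℝ)) atTop
      (𝓝 K) := by
    have h1 := (hlim'.comp Real.tendsto_log_atTop).pow 2
    have h2 : (Nat.card {t : TH942.SPt (a : ℚ) (b : ℚ) // IsOfFinAddOrder t} *
        TH942.ballVol (Fintype.card (Fin r)) / √ (TH942.gram q g).det) ^ 2 = K := by
      rw [← hrg, div_pow, mul_pow, hsr2, Fintype.card_fin]
      rfl
    rw [h2] at h1
    refine h1.congr' ?_
    filter_upwards [eventually_gt_atTop 1] with X hX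
    have hl : 0 < Real.log X := Real.log_pos hX
    simp only [Function.comp_apply, Fintype.card_fin]
    have h6 : (Real.log X ^ ((r : ℝ) / 2)) ^ 2 = Real.log X ^ (r : ℝ) := by
      rw [← Real.rpow_natCast, ← Real.rpow_mul hl.le]
      congr 1
      push_cast
      ring
    rw [div_pow, h6]
    unfold pointsUpTo
    simp only [ht_eq]
  have hNpos : ∀ᶠ X : ℝ in atTop, (0 : ℝ) < (pointsUpTo a b X : ℝ) ^ 2 := by
    filter_upwards [eventually_ge_atTop 1] with X hX
    have h1 : Finite {P : Pts a b // ht P ≤ Real.log X} := (hfin _).to_subtype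
    have h2 : Nonempty {P : Pts a b // ht P ≤ Real.log X} := ⟨⟨0, Real.log_nonneg hX⟩⟩
    have h3 : 0 < pointsUpTo a b X := Nat.card_pos
    have h4 : (0 : ℝ) < pointsUpTo a b X := by exact_mod_cast h3
    positivity
  -- the limit of the quotient determines everything
  have hback : ∀ k : ℝ, 0 < k → ∀ l : ℝ, l ≠ 0 → Tendsto (fun X : ℝ => (pointsUpTo a b X : ℝ) ^ 2 /
      rieszProduct a b k X) atTop (𝓝 l) → m = r ∧ ∀ s : ℂ, 1 < s.re → F s ≠ 0 := by
    intro k hk l hl h
    have h1 : Tendsto (fun X : ℝ => rieszProduct a b k X / Real.log X ^ (r : ℝ)) atTop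
        (𝓝 (K / l)) := by
      refine (hN.div h hl).congr' ?_
      filter_upwards [hNpos, eventually_gt_atTop 1] with X h2 h3
      have h4 : 0 < Real.log X := Real.log_pos h3
      have h5 := rieszProduct_pos a b k X
      have h6 := Real.rpow_pos_of_pos h4 (r : ℝ)
      simp only [Pi.div_apply]
      generalize (pointsUpTo a b X : ℝ) ^ 2 = n at h2 ⊢
      field_simp
    have hz := zero_free hF hk (div_ne_zero hK0.ne' hl) h1
    obtain ⟨A, hA, h2, h3⟩ := prod_lim hΔ hrs hgr hF hk hm hz
    have h4 := exponent_unique (by positivity) (div_ne_zero hK0.ne' hl) h3 h1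
    exact ⟨by exact_mod_cast h4, hz⟩
  -- and conversely
  have hforth : m = r → (∀ s : ℂ, 1 < s.re → F s ≠ 0) → ∃ A : ℝ, 0 < A ∧
      iteratedDeriv r F 1 / (r.factorial : ℂ) = (A : ℂ) ∧ ∀ k : ℝ, 0 < k →
      Tendsto (fun X : ℝ => (pointsUpTo a b X : ℝ) ^ 2 / rieszProduct a b k X) atTop
        (𝓝 (K * A * Real.exp (r * psi (k + 1)) / √2)) := by
    intro hmr hz
    obtain ⟨A, hA, h2, -⟩ := prod_lim hΔ hrs hgr hF one_pos hm hz
    rw [hmr] at h2
    refine ⟨A, hA, h2, fun k hk => ?_⟩
    obtain ⟨A', hA', h2', h3⟩ := prod_lim hΔ hrs hgr hF hk hm hz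
    rw [hmr] at h2' h3
    have hAA : A' = A := by
      rw [h2] at h2'
      exact_mod_cast h2'.symm
    rw [hAA] at h3
    have h4 := hN.div h3 (by positivity)
    have h5 : K / (√2 * Real.exp (-(r * psi (k + 1))) / A) =
        K * A * Real.exp (r * psi (k + 1)) / √2 := by
      rw [Real.exp_neg]
      field_simp
    rw [h5] at h4
    refine h4.congr' ?_
    filter_upwards [hNpos, eventually_gt_atTop 1] with X h2 h3
    have h4 : 0 < Real.log X := Real.log_pos h3
    have h5 := rieszProduct_pos a b k X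
    have h6 := Real.rpow_pos_of_pos h4 (r : ℝ)
    simp only [Pi.div_apply]
    field_simp
  have hmr : analyticOrderAt F 1 = r ↔ m = r := by
    rw [hm]
    exact Nat.cast_inj
  have h20 : (0 : ℝ) < √2 := by positivity
  refine ⟨hreg, fun B hB => ?_⟩
  tfae_have 1 → 2 := by
    rintro ⟨h1, h2, hz⟩ k hk
    obtain ⟨A, hA, h3, h4⟩ := hforth (hmr.1 h1) hz
    have h5 : A = B * regulator g / tors a b ^ 2 := by
      rw [h2] at h3
      exact_mod_cast h3.symm
    have h6 : K * A * Real.exp (r * psi (k + 1)) / √2 =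
        ballVol r ^ 2 * B * Real.exp (r * psi (k + 1)) / √2 := by
      rw [h5, hK]
      field_simp
    rw [← h6]
    exact h4 k hk
  tfae_have 2 → 3 := fun h => ⟨1, one_pos, h 1 one_pos⟩
  tfae_have 3 → 1 := by
    rintro ⟨k, hk, h⟩
    obtain ⟨h1, hz⟩ := hback k hk _ (by positivity) h
    obtain ⟨A, hA, h3, h4⟩ := hforth h1 hz
    have h5 := tendsto_nhds_unique (h4 k hk) h
    rw [div_left_inj' h20.ne', mul_left_inj' (Real.exp_pos _).ne'] at h5
    refine ⟨hmr.2 h1, ?_, hz⟩
    rw [h3]
    congr 1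
    rw [hK] at h5
    field_simp at h5 ⊢
    linear_combination h5
  tfae_finish

end Pool.Agent.Results.MP_92892c_nt.RieszFormula
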