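import Pool.Agent.TH942.SL.Final
import Pool.Agent.TH942.Fin

/-!
# Numerical laws with random cut-off: rank form and zero-free sectors

Let `C : y² = x³ + a x + b` be an elliptic curve over `ℚ`, `a, b ∈ ℤ`, let `F` be its incomplete `L`-series,
`N_p` the number of affine points modulo a prime `p ∤ 2Δ`, and `N(X)` the number of rational points of `C`
(with the point at infinity) whose `x`-coordinate `m/n` has `max (|m|, n) ≤ X`, so that
`N(X)² ≍ (log X)^rank`.

For `ρ > 1` let `w_ρ(u)`, `u > 0`, be the function `(2π)⁻¹ ∫ Re (exp (z - u z^(1/ρ)) / z) dt`, `z = 1 + i t`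
(this is the probability that a stable subordinator of index `1/ρ` has not passed `1` at the time `u`; for
`ρ = 2` it is `erfc (u/2)`), and

`Π_ρ(X) = ∏_{p ≤ exp ((log X)^ρ'), p ∤ 2Δ} ((N_p + 1)/p) ^ w_ρ(log p / log X)`,   `ρ' > ρ`.

The weights are invariant in the logarithmic scale, but have no finite cut-off. It is shown that

* `N(X)² ≍ Π_ρ(X)` if and only if `log (N(X)² / Π_ρ(X)) = o(log log X)`, if and only if the order `m` of `F` at
  `s = 1` is the rank of `C(ℚ)` and `F` has no zeros `s ≠ 1` in the sector `|arg (s - 1)| < π / (2ρ)`;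
* if there are no zeros in the sector, then `N(X)² / Π_ρ(X) ≍ (log X)^(rank - m)`;
* a zero `s ≠ 1` in the sector makes `|log (N(X)² / Π_ρ(X))| > C exp (β (log X)^ρ)` for arbitrarily large `X`,
  for every `β < Re ((s - 1)^ρ)` and `C`;
* the laws hold for all `ρ > 1` if and only if `m` is the rank and `F` has no zeros with `Re s > 1` (by the
  functional equation this is the Riemann hypothesis for `C`).

So every `ρ > 1` gives a numerical law which is EQUIVALENT to the rank form together with a zero-free sector of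
half opening `π / (2ρ)`. The laws lie between the rank form itself (`ρ → ∞`) and rank form plus Riemann
hypothesis (`ρ → 1`), whereas the original law of Birch and Swinnerton-Dyer (the product over `p ≤ X`) is not
known to follow from rank form and Riemann hypothesis.

Proof. With `y = (log X)^ρ`, `α = 1/ρ`, `log Π_ρ(X)` is up to `O(1)` the integral
`(2πi)⁻¹ ∫ e^{zy} D(z^α) dz/z`, `D(s) = ∑ log ((N_p+1)/p) p^{-s}`, and `z^α` maps the half plane `Re z > 0` to the
sector. If the sector is free of zeros, the line of integration is moved to `Re z = 1/y`, after an integration by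
parts; the logarithmic derivative of `F` is `O(1 + 1/Re z)` on compact sets of `z`, also near zeros on the
boundary of the sector. The converse is Laplace inversion and analytic continuation.
-/

set_option autoImplicit false

namespace Pool.Agent.Results.MP_92892c_nt.SectorLaw

open Pool.Agent.W263.BSD Filter Topology Classical MeasureTheory Pool.Agent.TH942.SL

/-- The rank of the group of rational points of `y² = x³ + a x + b`. -/
noncomputable def rank (a b : ℤ) : ℕ :=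
  Module.finrank ℤ
    (WeierstrassCurve.Affine.Point
      (WeierstrassCurve.toAffine
        ({ a₁ := 0, a₂ := 0, a₃ := 0, a₄ := (a : ℚ), a₆ := (b : ℚ) } : WeierstrassCurve ℚ)))

/-- The number of rational points of `y² = x³ + a x + b`, the point at infinity included, with
`max (|m|, n) ≤ X` for the `x`-coordinate `m / n` in lowest terms. -/
noncomputable def pointsUpTo (a b : ℤ) (X : ℝ) : ℕ :=
  Nat.card {P : ℚ × ℚ // P.2 ^ 2 = P.1 ^ 3 + a * P.1 + b ∧
    (max P.1.num.natAbs P.1.den : ℝ) ≤ X} + 1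

/-- The weight `w_ρ(u) = (2π)⁻¹ ∫ Re (exp (z - u z^(1/ρ)) / z) dt`, `z = 1 + i t`. -/
noncomputable def weight (ρ u : ℝ) : ℝ :=
  (2 * Real.pi)⁻¹ * ∫ t : ℝ, (Complex.exp ((1 + t * Complex.I) -
    u * (1 + t * Complex.I) ^ ((ρ⁻¹ : ℝ) : ℂ)) / (1 + t * Complex.I)).re

/-- `Π_ρ(X)`: the product over the primes `p ≤ exp ((log X)^ρ')`, `p ∤ 2Δ`, of the powers of `(N_p + 1) / p`
with exponents `w_ρ(log p / log X)`. -/
noncomputable def localProduct (a b : ℤ) (ρ ρ' X : ℝ) : ℝ :=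
  ∏ p ∈ (Finset.range (⌊Real.exp (Real.log X ^ ρ')⌋₊ + 1)).filter (GoodPrime a b),
    (((pointCount a b p : ℝ) + 1) / p) ^ weight ρ (Real.log p / Real.log X)

/-- There are no zeros `s ≠ 1` with `|arg (s - 1)| < π / (2ρ)`. -/
def ZeroFreeSector (F : ℂ → ℂ) (ρ : ℝ) : Prop :=
  ∀ s : ℂ, s ≠ 1 → |(s - 1).arg| < Real.pi / (2 * ρ) → F s ≠ 0

/-- The law `N(X)² ≍ Π_ρ(X)`. -/
def Law (a b : ℤ) (ρ ρ' : ℝ) : Prop :=
  ∃ A B : ℝ, 0 < A ∧ 0 < B ∧ ∀ᶠ X : ℝ in atTop,
    A * localProduct a b ρ ρ' X ≤ (pointsUpTo a b X : ℝ) ^ 2 ∧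
    (pointsUpTo a b X : ℝ) ^ 2 ≤ B * localProduct a b ρ ρ' X

theorem factor_pos {a b : ℤ} {p : ℕ} (hp : GoodPrime a b p) :
    0 < ((pointCount a b p : ℝ) + 1) / p := by
  have hp0 : (0 : ℝ) < p := by exact_mod_cast hp.1.pos
  positivity

theorem localProduct_pos (a b : ℤ) (ρ ρ' X : ℝ) : 0 < localProduct a b ρ ρ' X :=
  Finset.prod_pos fun _ hp => Real.rpow_pos_of_pos (factor_pos (Finset.mem_filter.1 hp).2) _

theorem log_localProduct (a b : ℤ) (ρ ρ' X : ℝ) :
    Real.log (localProduct a b ρ ρ' X) = Sr a b ρ ρ' X := by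
  unfold localProduct Sr
  rw [Real.log_prod fun p hp => (Real.rpow_pos_of_pos (factor_pos (Finset.mem_filter.1 hp).2) _).ne']
  refine Finset.sum_congr rfl fun p hp => ?_
  rw [Real.log_rpow (factor_pos (Finset.mem_filter.1 hp).2)]
  rfl

theorem points_bounds {a b : ℤ} (hΔ : 4 * a ^ 3 + 27 * b ^ 2 ≠ 0) :
    ∃ A B X₁ : ℝ, 0 < A ∧ 0 < B ∧ ∀ X : ℝ, X₁ ≤ X →
      A * Real.log X ^ (rank a b : ℝ) ≤ (pointsUpTo a b X : ℝ) ^ 2 ∧
      (pointsUpTo a b X : ℝ) ^ 2 ≤ B * Real.log X ^ (rank a b : ℝ) := by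
  obtain ⟨κ, hκ, h⟩ := TH942.ratCount_growth hΔ
  have h1 : ∀ᶠ X : ℝ in atTop, κ / 2 < (TH942.ratCount a b X : ℝ) /
      (Real.log X) ^ ((Module.finrank ℤ (TH942.SPt (a : ℚ) (b : ℚ)) : ℝ) / 2) :=
    h.eventually_const_lt (by linarith)
  have h2 : ∀ᶠ X : ℝ in atTop, (TH942.ratCount a b X : ℝ) /
      (Real.log X) ^ ((Module.finrank ℤ (TH942.SPt (a : ℚ) (b : ℚ)) : ℝ) / 2) < 2 * κ :=
    h.eventually_lt_const (by linarith)
  obtain ⟨X₁, hX₁⟩ := (h1.and (h2.and (eventually_gt_atTop 1))).exists_forall_of_atTop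
  refine ⟨(κ / 2) ^ 2, (2 * κ) ^ 2, X₁, by positivity, by positivity, fun X hX => ?_⟩
  obtain ⟨h3, h4, h5⟩ := hX₁ X hX
  have hl : 0 < Real.log X := Real.log_pos h5
  have h6 : 0 < (Real.log X) ^ ((rank a b : ℝ) / 2) := Real.rpow_pos_of_pos hl _
  have h7 : ((Real.log X) ^ ((rank a b : ℝ) / 2)) ^ 2 = Real.log X ^ (rank a b : ℝ) := by
    rw [← Real.rpow_natCast, ← Real.rpow_mul hl.le]
    congr 1
    push_cast
    ring
  change κ / 2 < (pointsUpTo a b X : ℝ) / (Real.log X) ^ ((rank a b : ℝ) / 2) at h3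
  change (pointsUpTo a b X : ℝ) / (Real.log X) ^ ((rank a b : ℝ) / 2) < 2 * κ at h4
  rw [lt_div_iff₀ h6] at h3
  rw [div_lt_iff₀ h6] at h4
  rw [← h7, ← mul_pow, ← mul_pow]
  have h8 : (0 : ℝ) ≤ pointsUpTo a b X := Nat.cast_nonneg _
  constructor
  · exact pow_le_pow_left₀ (by positivity) h3.le 2
  · exact pow_le_pow_left₀ h8 h4.le 2

theorem points_pos (a b : ℤ) (X : ℝ) : 0 < (pointsUpTo a b X : ℝ) ^ 2 := by
  have h1 : 0 < pointsUpTo a b X := Nat.succ_pos _
  have h2 : (0 : ℝ) < pointsUpTo a b X := by exact_mod_cast h1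
  positivity

theorem loglog_tendsto : Tendsto (fun X : ℝ => Real.log (Real.log X)) atTop atTop :=
  Real.tendsto_log_atTop.comp Real.tendsto_log_atTop

/-- the logarithm of the number of points -/
theorem points_log {a b : ℤ} (hΔ : 4 * a ^ 3 + 27 * b ^ 2 ≠ 0) : ∃ C : ℝ, 0 ≤ C ∧
    ∀ᶠ X : ℝ in atTop, |Real.log ((pointsUpTo a b X : ℝ) ^ 2) -
      rank a b * Real.log (Real.log X)| ≤ C := by
  obtain ⟨A, B, X₁, hA, hB, hN⟩ := points_bounds hΔ
  refine ⟨|Real.log A| + |Real.log B|, by positivity, ?_⟩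
  filter_upwards [eventually_ge_atTop X₁, eventually_gt_atTop 1] with X h1 h3
  have hl : 0 < Real.log X := Real.log_pos h3
  have hlp : 0 < Real.log X ^ (rank a b : ℝ) := Real.rpow_pos_of_pos hl _
  obtain ⟨h4, h5⟩ := hN X h1
  have h6 := Real.log_le_log (mul_pos hA hlp) h4
  have h7 := Real.log_le_log (points_pos a b X) h5
  rw [Real.log_mul hA.ne' hlp.ne', Real.log_rpow hl] at h6
  rw [Real.log_mul hB.ne' hlp.ne', Real.log_rpow hl] at h7
  have h8 := neg_abs_le (Real.log A)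
  have h9 := le_abs_self (Real.log B)
  have h10 := abs_nonneg (Real.log A)
  have h11 := abs_nonneg (Real.log B)
  rw [abs_le]
  constructor <;> linarith

/-- the logarithm of the ratio -/
theorem ratio_log {a b : ℤ} (hΔ : 4 * a ^ 3 + 27 * b ^ 2 ≠ 0) (ρ ρ' : ℝ) : ∃ C : ℝ, 0 ≤ C ∧
    ∀ᶠ X : ℝ in atTop, |Real.log ((pointsUpTo a b X : ℝ) ^ 2 / localProduct a b ρ ρ' X) -
      (rank a b * Real.log (Real.log X) - Sr a b ρ ρ' X)| ≤ C := by
  obtain ⟨C, hC, h⟩ := points_log hΔ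
  refine ⟨C, hC, ?_⟩
  filter_upwards [h] with X hX
  rw [Real.log_div (points_pos a b X).ne' (localProduct_pos a b ρ ρ' X).ne', log_localProduct]
  have : Real.log ((pointsUpTo a b X : ℝ) ^ 2) - Sr a b ρ ρ' X -
      (rank a b * Real.log (Real.log X) - Sr a b ρ ρ' X) =
      Real.log ((pointsUpTo a b X : ℝ) ^ 2) - rank a b * Real.log (Real.log X) := by ring
  rwa [this]

variable {a b : ℤ} {F : ℂ → ℂ}

theorem growth (hΔ : 4 * a ^ 3 + 27 * b ^ 2 ≠ 0) (hF : IsLSeries a b F) {ρ ρ' : ℝ} (hρ : 1 < ρ)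
    (hρ' : ρ < ρ') {m : ℕ} (hm : analyticOrderAt F 1 = m) (hz : ZeroFreeSector F ρ) :
    ∃ C : ℝ, 0 ≤ C ∧ ∀ᶠ X : ℝ in atTop,
      |Real.log ((pointsUpTo a b X : ℝ) ^ 2 / localProduct a b ρ ρ' X) -
        ((rank a b : ℝ) - m) * Real.log (Real.log X)| ≤ C := by
  obtain ⟨C₁, hC₁, h1⟩ := ratio_log hΔ ρ ρ'
  obtain ⟨C₂, hC₂, h2⟩ := Sr_up hF hρ hρ' hm hz
  refine ⟨C₁ + C₂, by positivity, ?_⟩
  filter_upwards [h1, h2] with X h3 h4
  rw [abs_le] at h3 h4 ⊢
  constructor <;> linarith [h3.1, h3.2, h4.1, h4.2]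

theorem law_of_sector (hΔ : 4 * a ^ 3 + 27 * b ^ 2 ≠ 0) (hF : IsLSeries a b F) {ρ ρ' : ℝ}
    (hρ : 1 < ρ) (hρ' : ρ < ρ') (hm : analyticOrderAt F 1 = rank a b) (hz : ZeroFreeSector F ρ) :
    Law a b ρ ρ' := by
  obtain ⟨C, hC, h⟩ := growth hΔ hF hρ hρ' hm hz
  refine ⟨Real.exp (-C), Real.exp C, Real.exp_pos _, Real.exp_pos _, ?_⟩
  filter_upwards [h] with X h1
  rw [sub_self, zero_mul, sub_zero, abs_le] at h1
  have hp := localProduct_pos a b ρ ρ' X
  have h2 := div_pos (points_pos a b X) hp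
  constructor
  · have := (Real.le_log_iff_exp_le h2).1 h1.1
    rwa [le_div_iff₀ hp] at this
  · have := (Real.log_le_iff_le_exp h2).1 h1.2
    rwa [div_le_iff₀ hp] at this

theorem small_of_law {ρ ρ' : ℝ} (h : Law a b ρ ρ') :
    Tendsto (fun X : ℝ => Real.log ((pointsUpTo a b X : ℝ) ^ 2 / localProduct a b ρ ρ' X) /
      Real.log (Real.log X)) atTop (𝓝 0) := by
  obtain ⟨A, B, hA, hB, h⟩ := h
  have hlo : Tendsto (fun X : ℝ => Real.log A / Real.log (Real.log X)) atTop (𝓝 0) :=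
    tendsto_const_nhds.div_atTop loglog_tendsto
  have hhi : Tendsto (fun X : ℝ => Real.log B / Real.log (Real.log X)) atTop (𝓝 0) :=
    tendsto_const_nhds.div_atTop loglog_tendsto
  have hpp := localProduct_pos a b ρ ρ'
  refine tendsto_of_tendsto_of_tendsto_of_le_of_le' hlo hhi ?_ ?_
  · filter_upwards [h, loglog_tendsto.eventually (eventually_gt_atTop 0)] with X h1 h2
    apply div_le_div_of_nonneg_right _ h2.le
    exact Real.log_le_log hA ((le_div_iff₀ (hpp X)).2 h1.1)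
  · filter_upwards [h, loglog_tendsto.eventually (eventually_gt_atTop 0)] with X h1 h2
    apply div_le_div_of_nonneg_right _ h2.le
    exact Real.log_le_log (div_pos (points_pos a b X) (hpp X)) ((div_le_iff₀ (hpp X)).2 h1.2)

theorem sector_of_limit (hΔ : 4 * a ^ 3 + 27 * b ^ 2 ≠ 0) (hF : IsLSeries a b F) {ρ ρ' : ℝ}
    (hρ : 1 < ρ) (hρ' : ρ < ρ') (h : Tendsto (fun X : ℝ => Real.log ((pointsUpTo a b X : ℝ) ^ 2 /
      localProduct a b ρ ρ' X) / Real.log (Real.log X)) atTop (𝓝 0)) :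
    analyticOrderAt F 1 = rank a b ∧ ZeroFreeSector F ρ := by
  obtain ⟨m, hm⟩ := Pool.Agent.W189.ML.order_finite_all hF 1
  obtain ⟨C₁, hC₁, h1⟩ := ratio_log hΔ ρ ρ'
  have hz : ZeroFreeSector F ρ := by
    refine sector_of_small hF hρ hρ' (K := 1 + rank a b + C₁) ?_
    have h2 : ∀ᶠ X : ℝ in atTop, |Real.log ((pointsUpTo a b X : ℝ) ^ 2 /
        localProduct a b ρ ρ' X) / Real.log (Real.log X)| < 1 := by
      refine ((Metric.tendsto_nhds.1 h) 1 one_pos).mono fun X hX => ?_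
      rwa [Real.dist_eq, sub_zero] at hX
    filter_upwards [h1, h2, loglog_tendsto.eventually_ge_atTop 1] with X h3 h4 h5
    have h6 : 0 < Real.log (Real.log X) := by linarith
    rw [abs_div, abs_of_pos h6, div_lt_one h6] at h4
    have hr : (0 : ℝ) ≤ rank a b := Nat.cast_nonneg _
    have h7 : C₁ ≤ C₁ * Real.log (Real.log X) := le_mul_of_one_le_right hC₁ h5
    rw [abs_le] at h3
    rw [abs_lt] at h4
    have h8 : 0 ≤ (rank a b : ℝ) * Real.log (Real.log X) := by positivity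
    rw [abs_le]
    constructor <;> nlinarith [h3.1, h3.2, h4.1, h4.2]
  refine ⟨?_, hz⟩
  obtain ⟨C, hC, h2⟩ := growth hΔ hF hρ hρ' hm hz
  -- the limit determines the exponent
  have h3 : Tendsto (fun X : ℝ => Real.log ((pointsUpTo a b X : ℝ) ^ 2 /
      localProduct a b ρ ρ' X) / Real.log (Real.log X)) atTop (𝓝 ((rank a b : ℝ) - m)) := by
    have h4 : Tendsto (fun X : ℝ => C / Real.log (Real.log X)) atTop (𝓝 0) :=
      tendsto_const_nhds.div_atTop loglog_tendsto
    rw [tendsto_iff_norm_sub_tendsto_zero]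
    refine squeeze_zero' (Eventually.of_forall fun X => norm_nonneg _) ?_ h4
    filter_upwards [h2, loglog_tendsto.eventually_ge_atTop 1] with X h5 h6
    have h7 : 0 < Real.log (Real.log X) := by linarith
    rw [Real.norm_eq_abs]
    have e1 : Real.log ((pointsUpTo a b X : ℝ) ^ 2 / localProduct a b ρ ρ' X) /
        Real.log (Real.log X) - ((rank a b : ℝ) - m) =
        (Real.log ((pointsUpTo a b X : ℝ) ^ 2 / localProduct a b ρ ρ' X) -
          ((rank a b : ℝ) - m) * Real.log (Real.log X)) / Real.log (Real.log X) := by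
      field_simp
    rw [e1, abs_div, abs_of_pos h7]
    exact div_le_div_of_nonneg_right h5 h7.le
  have h4 := tendsto_nhds_unique h3 h
  have h5 : (rank a b : ℝ) = m := by linarith
  have h6 : rank a b = m := by exact_mod_cast h5
  rw [hm, h6]

/-- **Laws with random cut-off.** -/
theorem result (a b : ℤ) (hΔ : 4 * a ^ 3 + 27 * b ^ 2 ≠ 0) (F : ℂ → ℂ) (hF : IsLSeries a b F) :
    (∀ ρ ρ' : ℝ, 1 < ρ → ρ < ρ' →
      -- the equivalence
      (List.TFAE [analyticOrderAt F 1 = rank a b ∧ ZeroFreeSector F ρ,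
        Law a b ρ ρ',
        Tendsto (fun X : ℝ => Real.log ((pointsUpTo a b X : ℝ) ^ 2 / localProduct a b ρ ρ' X) /
          Real.log (Real.log X)) atTop (𝓝 0)]) ∧
      -- the growth if the sector is free of zeros
      (∀ m : ℕ, analyticOrderAt F 1 = m → ZeroFreeSector F ρ →
        ∃ A B : ℝ, 0 < A ∧ 0 < B ∧ ∀ᶠ X : ℝ in atTop,
          A * Real.log X ^ ((rank a b : ℝ) - m) ≤
            (pointsUpTo a b X : ℝ) ^ 2 / localProduct a b ρ ρ' X ∧
          (pointsUpTo a b X : ℝ) ^ 2 / localProduct a b ρ ρ' X ≤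
            B * Real.log X ^ ((rank a b : ℝ) - m)) ∧
      -- the oscillation if it is not
      (∀ s : ℂ, s ≠ 1 → |(s - 1).arg| < Real.pi / (2 * ρ) → F s = 0 → ∀ β : ℝ,
        β < ((s - 1) ^ (ρ : ℂ)).re → ∀ C : ℝ, ∃ᶠ X : ℝ in atTop,
          C * Real.exp (β * Real.log X ^ ρ) <
            |Real.log ((pointsUpTo a b X : ℝ) ^ 2 / localProduct a b ρ ρ' X)|)) ∧
    -- all laws together
    ((∀ ρ ρ' : ℝ, 1 < ρ → ρ < ρ' → Law a b ρ ρ') ↔
      analyticOrderAt F 1 = rank a b ∧ ∀ s : ℂ, 1 < s.re → F s ≠ 0) := by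
  refine ⟨fun ρ ρ' hρ hρ' => ⟨?_, ?_, ?_⟩, ?_, ?_⟩
  · tfae_have 1 → 2 := fun h => law_of_sector hΔ hF hρ hρ' h.1 h.2
    tfae_have 2 → 3 := fun h => small_of_law h
    tfae_have 3 → 1 := fun h => sector_of_limit hΔ hF hρ hρ' h
    tfae_finish
  · intro m hm hz
    obtain ⟨C, hC, h⟩ := growth hΔ hF hρ hρ' hm hz
    refine ⟨Real.exp (-C), Real.exp C, Real.exp_pos _, Real.exp_pos _, ?_⟩
    filter_upwards [h, eventually_gt_atTop 1] with X h1 h2
    have hl : 0 < Real.log X := Real.log_pos h2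
    have hq := div_pos (points_pos a b X) (localProduct_pos a b ρ ρ' X)
    rw [abs_le] at h1
    have e1 : Real.log X ^ ((rank a b : ℝ) - m) =
        Real.exp (((rank a b : ℝ) - m) * Real.log (Real.log X)) := by
      rw [Real.rpow_def_of_pos hl, mul_comm]
    rw [e1, ← Real.exp_add, ← Real.exp_add]
    constructor
    · rw [← Real.le_log_iff_exp_le hq]
      linarith [h1.1]
    · rw [← Real.log_le_iff_le_exp hq]
      linarith [h1.2]
  · intro s hs1 hs h0 β hβ C
    obtain ⟨C₁, hC₁, h1⟩ := ratio_log hΔ ρ ρ'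
    obtain ⟨h2, -⟩ := exists_root hρ (sub_ne_zero.2 hs1) hs
    obtain ⟨β', h3, h4⟩ := exists_between (max_lt hβ h2)
    have h5 : β < β' := (le_max_left _ _).trans_lt h3
    have h6 : 0 < β' := (le_max_right _ _).trans_lt h3
    have hr : (0 : ℝ) ≤ rank a b := Nat.cast_nonneg _
    have h7 := Sr_down hF hρ hρ' hs1 hs h0 h4 (|C| + rank a b / β' + C₁)
    refine (h7.and_eventually (h1.and (Real.tendsto_log_atTop.eventually_ge_atTop 1))).mono ?_
    rintro X ⟨h8, h9, h10⟩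
    have hT : 0 < Real.log X := by linarith
    have hy : 0 < Real.log X ^ ρ := Real.rpow_pos_of_pos hT _
    have e1 : Real.log (Real.log X) ≤ Real.log X ^ ρ := by
      have e2 := Real.log_le_sub_one_of_pos hT
      have e3 : Real.log X ≤ Real.log X ^ ρ := by
        conv_lhs => rw [← Real.rpow_one (Real.log X)]
        exact Real.rpow_le_rpow_of_exponent_le h10 hρ.le
      linarith
    have e0 : 0 ≤ Real.log (Real.log X) := Real.log_nonneg h10
    set E : ℝ := Real.exp (β' * Real.log X ^ ρ) with hE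
    have e4 : β' * Real.log X ^ ρ ≤ E := by
      have := Real.add_one_le_exp (β' * Real.log X ^ ρ)
      rw [hE]
      linarith
    have e5 : 1 ≤ E := Real.one_le_exp (by positivity)
    have e6 : Real.exp (β * Real.log X ^ ρ) ≤ E :=
      Real.exp_le_exp.2 (mul_le_mul_of_nonneg_right h5.le hy.le)
    have e7 : C * Real.exp (β * Real.log X ^ ρ) ≤ |C| * E :=
      mul_le_mul (le_abs_self C) e6 (Real.exp_pos _).le (abs_nonneg _)
    have e8 : (rank a b : ℝ) * Real.log (Real.log X) ≤ rank a b / β' * E := by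
      calc (rank a b : ℝ) * Real.log (Real.log X) ≤ rank a b * Real.log X ^ ρ := by gcongr
        _ = rank a b / β' * (β' * Real.log X ^ ρ) := by field_simp
        _ ≤ _ := by gcongr
    have e9 : C₁ ≤ C₁ * E := le_mul_of_one_le_right hC₁ e5
    have e10 : 0 ≤ (rank a b : ℝ) * Real.log (Real.log X) := by positivity
    have e11 := abs_sub_abs_le_abs_sub (Sr a b ρ ρ' X) (rank a b * Real.log (Real.log X))
    rw [abs_of_nonneg e10, abs_sub_comm] at e11
    have e12 := abs_sub_abs_le_abs_sub (rank a b * Real.log (Real.log X) - Sr a b ρ ρ' X)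
      (Real.log ((pointsUpTo a b X : ℝ) ^ 2 / localProduct a b ρ ρ' X))
    rw [abs_sub_comm (rank a b * Real.log (Real.log X) - Sr a b ρ ρ' X)] at e12
    have e13 : (|C| + rank a b / β' + C₁) * E = |C| * E + rank a b / β' * E + C₁ * E := by ring
    rw [e13] at h8
    linarith
  · intro h
    have h1 : ∀ ρ : ℝ, 1 < ρ → analyticOrderAt F 1 = rank a b ∧ ZeroFreeSector F ρ :=
      fun ρ hρ => sector_of_limit hΔ hF hρ (lt_add_one ρ) (small_of_law (h ρ (ρ + 1) hρ (lt_add_one ρ)))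
    refine ⟨(h1 2 (by norm_num)).1, fun s hs => ?_⟩
    obtain ⟨ρ, hρ, h2⟩ := mem_sector hs
    refine (h1 ρ hρ).2 s (fun h3 => ?_) h2
    rw [h3, Complex.one_re] at hs
    exact lt_irrefl _ hs
  · rintro ⟨h1, h2⟩ ρ ρ' hρ hρ'
    exact law_of_sector hΔ hF hρ hρ' h1 fun s hs1 hs => h2 s (re_of_sector hρ hs1 hs)

end Pool.Agent.Results.MP_92892c_nt.SectorLaw
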